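import Pool.Agent.Q271.LD2.Light

set_option autoImplicit false
set_option linter.unusedSectionVars false

/-!
# One phase with light rows, with a free accuracy parameter `τ`
-/

open MeasureTheory ProbabilityTheory

namespace Pool.Agent.Q271.LD3

open Pool.Agent.H320R2.LD Pool.Agent.H320R2.LD.PHASE Pool.Agent.Q271.LD2

open Classical in
/-- The assembly with explicit parameters. -/
theorem core_phase3 (hmix : St_MIX) (hSOL : St_SOL) (hLOC : St_LOC)
    (hFAR : St_FAR) (hMEAN : St_MEAN) (hGEX : St_GEX)
    (hCONC : St_CONC) (hMOM : St_MOM)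
    {V W W' : Type} [Fintype V] [Fintype W] [Fintype W'] (A : W → V → ℝ) (B : W' → V → ℝ)
    (a : V → ℝ) (t s : ℝ)
    (hA1 : ∀ R v, A R v ^ 2 * t ≤ 1) (hA3 : ∀ v, ∑ R, A R v ^ 2 ≤ 1)
    (ha : ∀ v, |a v| ≤ 1) (hPhi : ∀ R, Phi A a R ≤ s)
    (ht : 1000 ≤ t) (τ : ℝ) (hτ : 1000 ≤ τ) (hs : 0 < s) (hs1 : s ≤ 1) (M K w0 α q qb ε c Ch N1 : ℝ) (D m : ℕ)
    (hA4 : ∀ R, (Finset.univ.filter (fun v => A R v ≠ 0)).card ≤ D)
    (hA5 : ∀ v, (Finset.univ.filter (fun R => A R v ≠ 0)).card ≤ D)
    (hM : M = 400) (hK : 1 ≤ K) (hw0 : 0 < w0) (hw1 : w0 ≤ 1) (hw2 : w0 ≤ 1/1000)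
    (hc : c = 1 / 10 ^ 12)
    (hq : 2 * (1 + 2 * M) ≤ q) (hqw : w0 ≤ q⁻¹) (hα : 0 < α) (hα1 : α ≤ 1) (hm : 1 ≤ m)
    (hN0 : 0 ≤ N1)
    (hN1 : ∀ x : V → ℝ, ∑ R, (∑ v, |bb A a s R v| * |x v|) ^ 2 ≤ N1 * nsq x)
    (hCT : 8 * α ^ 2 * q ^ 4 * N1 ≤ 1)
    (hqb : 0 < qb) (hqb1 : qb ≤ 1) (hε : 0 < ε)
    (hpath : (2 * (D : ℝ) ^ 2) ^ (4 * m) * Real.exp (-(m : ℝ) * q ^ 2 / (4 * M ^ 2)) ≤ qb ^ 2)
    (hεq : ε + 2 * qb ≤ 1 / τ)
    (hDt : Real.sqrt D / τ ≤ 1)
    (hCh : 0 < Ch) (hEH : ∀ (z : (V → ℝ) → (V → ℝ)),
      (∀ y, VI (bb A a s) (pf K w0) y (z y)) → ∀ R,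
      Integrable (fun g => hf K w0 (eta (bb A a s) (z (M • g)) R)) (gam V) ∧
      ∫ g, hf K w0 (eta (bb A a s) (z (M • g)) R) ∂(gam V) ≤ Ch * (K⁻¹) ^ 4)
    (hKs : 16 * ((1 / s) * (Ch * (K⁻¹) ^ 4)) ≤ 1 / 1000)
    (δ1 : ℝ) (hδ1 : δ1 = 2 * qb + 2 * Real.exp (-(ε ^ 2 * Real.exp (4 * α * m) / (16 * M ^ 2))))
    (Bs : ℝ) (hBs : (((D ^ 2 + 1) ^ (4 * m) : ℕ) : ℝ) ≤ Bs)
    (y δ ν Nn : W' → ℝ) (yh Y X' : ℝ)
    (hy0 : ∀ i, 0 ≤ y i) (hy1 : ∀ i, y i ≤ 1 / 2) (hyh0 : 0 ≤ yh) (hyh1 : yh ≤ 1 / 2)
    (hX0 : 0 ≤ X') (hX' : Bs * (D * yh + Y) ≤ X')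
    (hY : ∀ v, ∑ i ∈ Finset.univ.filter (fun i => B i v ≠ 0), y i ≤ Y)
    (hδ : ∀ i, 0 < δ i) (hν : ∀ i, 0 < ν i) (hBν : ∀ i, ∑ v, B i v ^ 2 ≤ ν i)
    (hBN : ∀ i, ((Finset.univ.filter (fun v => B i v ≠ 0)).card : ℝ) ≤ Nn i)
    (hB1 : ∀ i, (∑ v, |B i v|) * (1 / τ) ≤ δ i / 2)
    (hfinH : Real.exp (-(c * (s * t))) + 2 * Real.exp (-((w0⁻¹) ^ 4 / M ^ 2)) + D * δ1 ≤
      yh * Real.exp (-(2 * (X' * (D * Bs)))))
    (hfinL : ∀ i, 2 * Real.exp (-(δ i ^ 2 / (16 * M ^ 2 * ν i))) + Nn i * δ1 ≤
        y i * Real.exp (-(2 * (X' * (Nn i * Bs)))) ∨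
      2 * Real.exp (-(δ i ^ 2 / (4 * M ^ 2 * (ν i * Bs)))) ≤
        y i * Real.exp (-(2 * (X' * (Nn i * Bs)))))
    (z : (V → ℝ) → (V → ℝ)) (hz : ∀ y, VI (bb A a s) (pf K w0) y (z y)) :
    ∃ a' : V → ℝ, (∀ v, |a' v| ≤ 1) ∧ (∀ R, Phi A a' R ≤ 77/100 * s) ∧
      (∀ R, |∑ v, A R v * (a' v - a v)| ≤ (K + 3) * Real.sqrt s) ∧
      ∀ i, |∑ v, B i v * (a' v - a v)| ≤ δ i := by
  have hM0 : 0 < M := by rw [hM]; norm_num
  have ht0 : 0 < t := by linarith
  have hτ0 : 0 < τ := by linarith
  set b := bb A a s with hb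
  have hbrow : ∀ R, ∑ v, b R v ^ 2 ≤ 1 := fun R => bb_row ha hs R (hPhi R)
  have hbcol : ∀ v, ∑ R, b R v ^ 2 ≤ 1 / s := fun v => bb_col ha hs v (hA3 v)
  obtain ⟨hodd, hlip, hlipv, hlipR, -, -⟩ := hSOL V W b K w0 z hK hw0 hw1 hz
  have hzb : ∀ y v, |z y v| ≤ 1 := fun y v => (hz y).1 v
  -- supports
  obtain ⟨I, hI⟩ : ∃ I : W → V → Prop, ∀ R v, I R v ↔ A R v ≠ 0 := ⟨_, fun _ _ => Iff.rfl⟩
  have hbI : ∀ R v, b R v ≠ 0 → I R v := fun R v h => (hI R v).2 (bb_supp R v h)
  have hAI : ∀ R v, ¬ I R v → A R v = 0 := fun R v h => by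
    by_contra h0
    exact h ((hI R v).2 h0)
  have hcardR : ∀ R, (Finset.univ.filter (fun v => I R v)).card ≤ D := by
    intro R
    simp_rw [hI]
    convert hA4 R using 2
  have hcardV : ∀ v, (Finset.univ.filter (fun R => I R v)).card ≤ D := by
    intro v
    simp_rw [hI]
    convert hA5 v using 2
  have hncR : ∀ R, {v | I R v}.ncard ≤ D := by
    intro R
    rw [Set.ncard_eq_toFinset_card']
    convert hcardR R using 2
    ext v; simp
  have hncV : ∀ v, {R | I R v}.ncard ≤ D := by
    intro v
    rw [Set.ncard_eq_toFinset_card']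
    convert hcardV v using 2
    ext R; simp
  -- locality
  set X : V → (V → ℝ) → ℝ := fun v => XX z M (ball I (4 * m) v) v with hX
  have hloc : ∀ v, (gam V).real {g | ε + 2 * qb < |X v g - z (M • g) v|} ≤ δ1 := by
    intro v
    rw [hδ1]
    exact hLOC V W b K w0 M α q qb ε N1 D m z I hK hw0 hw1 hz hbI
      hncR hncV hM0 hα hα1 hq hqw hN0 hN1 hCT hqb hqb1 hε hm hpath v
  -- expected free mass
  have hfree : ∀ v, ∫ g, (1 - |z (M • g) v|) ∂(gam V) ≤ 6 / 1000 := by
    intro v
    have h1 := hMEAN V W b K w0 M (w0 / 2) z hK hw0 hw1 hbrow hz hM0 (by positivity) le_rfl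
      (fun R => (hEH z hz R).1) v
    have h2 : ∑ R, b R v ^ 2 * ∫ g, hf K w0 (eta b (z (M • g)) R) ∂(gam V) ≤
        (1 / s) * (Ch * (K⁻¹) ^ 4) := by
      calc ∑ R, b R v ^ 2 * ∫ g, hf K w0 (eta b (z (M • g)) R) ∂(gam V)
          ≤ ∑ R, b R v ^ 2 * (Ch * (K⁻¹) ^ 4) :=
            Finset.sum_le_sum fun R _ =>
              mul_le_mul_of_nonneg_left (hEH z hz R).2 (sq_nonneg _)
        _ = (∑ R, b R v ^ 2) * (Ch * (K⁻¹) ^ 4) := by rw [Finset.sum_mul]
        _ ≤ (1 / s) * (Ch * (K⁻¹) ^ 4) :=
            mul_le_mul_of_nonneg_right (hbcol v) (by positivity)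
    have h3 : (1 : ℝ) / M = 1 / 400 := by rw [hM]
    rw [h3] at h1
    linarith
  have hzc : ∀ v, Continuous (fun g => z (M • g) v) := fun v =>
    lip_continuous (zM_lip hM0 hlipv v)
  have hG : ∀ v, ∫ g, Gp (sg a v * z (M • g) v) ∂(gam V) ≤ 3 / 4 := by
    intro v
    refine hGEX V (fun g => z (M • g) v) (hzc v) (fun g => hzb _ _) ?_ (hfree v) (sg a v)
      (sg_cases a v)
    intro g
    have h1 : M • (-g) = -(M • g) := smul_neg _ _
    show z (M • (-g)) v = - z (M • g) v
    rw [h1, hodd]; rfl
  -- progress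
  set F : W → (V → ℝ) → ℝ := fun R g => FF A a R (z (M • g)) with hF
  have hEF : ∀ R, ∫ g, F R g ∂(gam V) ≤ 3 / 4 * s := by
    intro R
    have h1 : ∫ g, F R g ∂(gam V) = ∑ v, A R v ^ 2 * Real.sqrt (rho a v) *
        ∫ g, Gp (sg a v * z (M • g) v) ∂(gam V) := by
      rw [hF]
      unfold FF
      rw [integral_finsetSum]
      · refine Finset.sum_congr rfl fun v _ => ?_
        rw [integral_const_mul]
      · intro v _
        refine Integrable.const_mul ?_ _
        refine Integrable.of_bound (C := 2) ?_ ?_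
        · exact (Gp_continuous.comp (continuous_const.mul (hzc v))).aestronglyMeasurable
        · refine Filter.Eventually.of_forall fun g => ?_
          rw [Real.norm_eq_abs]
          refine Gp_bdd _ ?_
          rw [abs_mul, sg_abs, one_mul]; exact hzb _ _
    rw [h1]
    have h2 : ∑ v, A R v ^ 2 * Real.sqrt (rho a v) *
        ∫ g, Gp (sg a v * z (M • g) v) ∂(gam V) ≤
        ∑ v, A R v ^ 2 * Real.sqrt (rho a v) * (3 / 4) :=
      Finset.sum_le_sum fun v _ => mul_le_mul_of_nonneg_left (hG v) (by positivity)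
    refine h2.trans ?_
    rw [← Finset.sum_mul]
    have h3 : ∑ v, A R v ^ 2 * Real.sqrt (rho a v) ≤ s := hPhi R
    linarith
  have hFlip : ∀ R, Lip (10 * Real.sqrt (s / t) * M) (F R) := by
    intro R x y
    refine (FF_lip t ht0 ha hs hA1 R (hPhi R) (z (M • x)) (z (M • y))).trans ?_
    rw [mul_assoc (10 * Real.sqrt (s / t))]
    refine mul_le_mul_of_nonneg_left ?_ (by positivity)
    refine (hlip (M • y) (M • x)).trans ?_
    rw [← smul_sub, nrm_smul, abs_of_pos hM0]
  have hFP : ∀ R, (gam V).real {g | (∫ y, F R y ∂(gam V)) + s / 100 ≤ F R g}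
      ≤ Real.exp (-(c * (s * t))) := by
    intro R
    have hL : 0 < 10 * Real.sqrt (s / t) * M := by positivity
    refine (hCONC V (F R) _ hL (hFlip R) (s / 100) (by positivity)).trans ?_
    rw [Real.exp_le_exp]
    have h1 : (10 * Real.sqrt (s / t) * M) ^ 2 = 100 * (s / t) * 160000 := by
      rw [mul_pow, mul_pow, Real.sq_sqrt (by positivity), hM]; norm_num
    rw [h1, hc, neg_div, neg_le_neg_iff, le_div_iff₀ (by positivity)]
    have h2 : (1 / 10 ^ 12 * (s * t)) * (4 * (100 * (s / t) * 160000)) = 64 / 10 ^ 6 * s ^ 2 := by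
      field_simp
      ring
    rw [h2]
    nlinarith [sq_nonneg s]
  -- the events
  have hfar := fun R => hFAR V W b K w0 M z hK hw0 hw1 hz hM0 R
  set E : W → Set (V → ℝ) := fun R => {g | 77/100 * s < FF A a R (fun v => X v g) ∨
    K + 3 < |eta b (fun v => X v g) R|} with hE
  have hXc : ∀ v, Continuous (X v) := fun v => lip_continuous (XX_lip hM0 hlipv hzb _ v)
  have hXb : ∀ v g, |X v g| ≤ 1 := fun v g => XX_abs hzb _ v g
  have hEm : ∀ R, MeasurableSet (E R) := by
    intro R
    have hER : E R = {g | 77/100 * s < FF A a R (fun v => X v g)} ∪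
      {g | K + 3 < |eta b (fun v => X v g) R|} := rfl
    rw [hER]
    refine MeasurableSet.union ?_ ?_
    · refine measurableSet_lt measurable_const (Continuous.measurable ?_)
      unfold FF
      refine continuous_finsetSum _ fun v _ => ?_
      exact continuous_const.mul (Gp_continuous.comp (continuous_const.mul (hXc v)))
    · refine measurableSet_lt measurable_const (Continuous.measurable ?_)
      refine Continuous.abs ?_
      unfold eta
      exact continuous_finsetSum _ fun v _ => continuous_const.mul (hXc v)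
  have hball : ∀ R v, I R v → ball I (4 * m) v ⊆ rball I (4 * m) R := by
    intro R v hv u hu
    unfold rball
    rw [Finset.mem_filter]
    exact ⟨Finset.mem_univ _, v, hv, hu⟩
  have hXdep : ∀ R v, I R v → ∀ x y : V → ℝ, (∀ u ∈ rball I (4 * m) R, x u = y u) →
      X v x = X v y := by
    intro R v hv x y hxy
    exact XX_dep _ v x y fun u hu => hxy u (hball R v hv hu)
  have hEdep : ∀ R, ∀ x y : V → ℝ, (∀ u ∈ rball I (4 * m) R, x u = y u) →
      (x ∈ E R → y ∈ E R) := by
    intro R x y hxy hx
    have h1 : FF A a R (fun v => X v x) = FF A a R (fun v => X v y) := by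
      unfold FF
      refine Finset.sum_congr rfl fun v _ => ?_
      by_cases hv : I R v
      · show A R v ^ 2 * Real.sqrt (rho a v) * Gp (sg a v * X v x)
          = A R v ^ 2 * Real.sqrt (rho a v) * Gp (sg a v * X v y)
        rw [hXdep R v hv x y hxy]
      · have : A R v = 0 := hAI R v hv
        rw [this]; simp
    have h2 : eta b (fun v => X v x) R = eta b (fun v => X v y) R := by
      unfold eta
      refine Finset.sum_congr rfl fun v _ => ?_
      by_cases hv : I R v
      · show b R v * X v x = b R v * X v y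
        rw [hXdep R v hv x y hxy]
      · have : b R v = 0 := by
          by_contra h0
          exact hv (hbI R v h0)
        rw [this]; simp
    show 77/100 * s < FF A a R (fun v => X v y) ∨ K + 3 < |eta b (fun v => X v y) R|
    rw [← h1, ← h2]
    exact hx
  have hEp : ∀ R, (gam V).real (E R) ≤ Real.exp (-(c * (s * t)))
      + 2 * Real.exp (-((w0⁻¹) ^ 4 / M ^ 2)) + D * δ1 := by
    intro R
    set S := Finset.univ.filter (fun v => I R v) with hS
    have hsub : E R ⊆ ({g | (∫ y, F R y ∂(gam V)) + s / 100 ≤ F R g} ∪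
        {g | K + 2 ≤ |eta b (z (M • g)) R|}) ∪
        ⋃ v ∈ S, {g | ε + 2 * qb < |X v g - z (M • g) v|} := by
      intro g hg
      by_contra hng
      rw [Set.mem_union, Set.mem_union, not_or, not_or] at hng
      obtain ⟨⟨h1, h2⟩, h3⟩ := hng
      have h1' : F R g < (∫ y, F R y ∂(gam V)) + s / 100 := not_le.1 h1
      have h2' : |eta b (z (M • g)) R| < K + 2 := not_le.1 h2
      have h3' : ∀ v, I R v → |X v g - z (M • g) v| ≤ 1 / τ := by
        intro v hv
        by_contra h4
        apply h3
        rw [Set.mem_iUnion₂]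
        refine ⟨v, by rw [hS, Finset.mem_filter]; exact ⟨Finset.mem_univ _, hv⟩, ?_⟩
        show ε + 2 * qb < |X v g - z (M • g) v|
        exact lt_of_le_of_lt hεq (not_le.1 h4)
      -- first alternative
      have h5 : FF A a R (fun v => X v g) ≤ F R g + s / 100 := by
        have h6 : FF A a R (fun v => X v g) - F R g ≤
            ∑ v, A R v ^ 2 * Real.sqrt (rho a v) * (1 / 100) := by
          rw [hF]
          unfold FF
          rw [← Finset.sum_sub_distrib]
          refine Finset.sum_le_sum fun v _ => ?_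
          rw [← mul_sub]
          by_cases hv : I R v
          · refine mul_le_mul_of_nonneg_left ?_ (by positivity)
            have h7 := (le_abs_self _).trans
              (Gp_lip (sg a v * X v g) (sg a v * z (M • g) v))
            rw [← mul_sub, abs_mul, sg_abs, one_mul] at h7
            refine h7.trans ?_
            have h8 := h3' v hv
            have h9 : 1 / τ ≤ 1 / 1000 := one_div_le_one_div_of_le (by norm_num) hτ
            linarith
          · have : A R v = 0 := hAI R v hv
            rw [this]; simp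
        rw [← Finset.sum_mul] at h6
        have h10 : ∑ v, A R v ^ 2 * Real.sqrt (rho a v) ≤ s := hPhi R
        linarith
      have h11 : |eta b (fun v => X v g) R| ≤ |eta b (z (M • g)) R| + 1 := by
        have h12 : |eta b (fun v => X v g) R - eta b (z (M • g)) R| ≤ 1 := by
          unfold eta
          rw [← Finset.sum_sub_distrib]
          have h13 : ∑ v, (b R v * X v g - b R v * z (M • g) v) =
              ∑ v, (b R v * (if I R v then 1 / τ else 0)) *
                (if I R v then τ * (X v g - z (M • g) v) else 0) := by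
            refine Finset.sum_congr rfl fun v _ => ?_
            split_ifs with hv
            · field_simp
            · have : b R v = 0 := by
                by_contra h0
                exact hv (hbI R v h0)
              rw [this]; simp
          rw [h13]
          have h14 : |∑ v, (b R v * (if I R v then 1 / τ else 0)) *
                (if I R v then τ * (X v g - z (M • g) v) else 0)| ≤
              (1 / τ) * nrm (fun v => if I R v then τ * (X v g - z (M • g) v) else 0) := by
            refine abs_sum_mul_le _ _ _ (by positivity) ?_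
            calc ∑ v, (b R v * (if I R v then 1 / τ else 0)) ^ 2
                ≤ ∑ v, b R v ^ 2 * (1 / τ) ^ 2 := by
                  refine Finset.sum_le_sum fun v _ => ?_
                  split_ifs
                  · rw [mul_pow]
                  · simp; positivity
              _ ≤ (1 / τ) ^ 2 := by
                  rw [← Finset.sum_mul]
                  exact mul_le_of_le_one_left (by positivity) (hbrow R)
          refine h14.trans ?_
          have h15 : nrm (fun v => if I R v then τ * (X v g - z (M • g) v) else 0) ≤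
              Real.sqrt D := by
            unfold nrm nsq
            refine Real.sqrt_le_sqrt ?_
            calc ∑ v, (if I R v then τ * (X v g - z (M • g) v) else 0) ^ 2
                ≤ ∑ v, (if I R v then (1 : ℝ) else 0) := by
                  refine Finset.sum_le_sum fun v _ => ?_
                  split_ifs with hv
                  · have h16 := h3' v hv
                    rw [le_div_iff₀ hτ0] at h16
                    have h17 : |τ * (X v g - z (M • g) v)| ≤ 1 := by
                      rw [abs_mul, abs_of_pos hτ0, mul_comm]; exact h16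
                    exact (sq_le_one_iff_abs_le_one _).2 h17
                  · simp
              _ = (S.card : ℝ) := by
                  rw [Finset.sum_boole]
              _ ≤ D := by exact_mod_cast hcardR R
          calc (1 / τ) * nrm (fun v => if I R v then τ * (X v g - z (M • g) v) else 0)
              ≤ (1 / τ) * Real.sqrt D := mul_le_mul_of_nonneg_left h15 (by positivity)
            _ = Real.sqrt D / τ := by ring
            _ ≤ 1 := hDt
        have h18 := abs_sub_abs_le_abs_sub (eta b (fun v => X v g) R) (eta b (z (M • g)) R)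
        linarith
      rcases hg with hg | hg
      · have := hEF R
        have hg' : 77/100 * s < FF A a R (fun v => X v g) := hg
        linarith
      · have hg' : K + 3 < |eta b (fun v => X v g) R| := hg
        linarith
    calc (gam V).real (E R) ≤ (gam V).real (({g | (∫ y, F R y ∂(gam V)) + s / 100 ≤ F R g} ∪
        {g | K + 2 ≤ |eta b (z (M • g)) R|}) ∪
        ⋃ v ∈ S, {g | ε + 2 * qb < |X v g - z (M • g) v|}) := measureReal_mono hsub
      _ ≤ (gam V).real ({g | (∫ y, F R y ∂(gam V)) + s / 100 ≤ F R g} ∪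
        {g | K + 2 ≤ |eta b (z (M • g)) R|}) +
        (gam V).real (⋃ v ∈ S, {g | ε + 2 * qb < |X v g - z (M • g) v|}) :=
          measureReal_union_le _ _
      _ ≤ (Real.exp (-(c * (s * t))) + 2 * Real.exp (-((w0⁻¹) ^ 4 / M ^ 2))) + D * δ1 := by
          refine add_le_add ?_ ?_
          · refine (measureReal_union_le _ _).trans ?_
            exact add_le_add (hFP R) (hfar R)
          · refine (measureReal_biUnion_finset_le _ _).trans ?_
            calc ∑ v ∈ S, (gam V).real {g | ε + 2 * qb < |X v g - z (M • g) v|}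
                ≤ ∑ v ∈ S, δ1 := Finset.sum_le_sum fun v _ => hloc v
              _ = S.card * δ1 := by rw [Finset.sum_const, nsmul_eq_mul]
              _ ≤ D * δ1 := by
                  refine mul_le_mul_of_nonneg_right ?_ (by rw [hδ1]; positivity)
                  exact_mod_cast hcardR R
  -- local lemma
  have hδ0 : 0 ≤ δ1 := by rw [hδ1]; positivity
  have hball0 : ∀ v, ((ball I (4 * m) v).card : ℝ) ≤ Bs := by
    intro v
    refine le_trans ?_ hBs
    exact_mod_cast DEP.card_ball hncR hncV (4 * m) v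
  have hBs0 : 0 ≤ Bs := (Nat.cast_nonneg _).trans hBs
  have hBs1 : 1 ≤ Bs := by
    refine le_trans ?_ hBs
    exact_mod_cast Nat.one_le_pow _ _ (by positivity)
  -- light rows
  set SL : W' → Finset V := fun i =>
    (Finset.univ.filter (fun v => B i v ≠ 0)).biUnion (fun v => ball I (4 * m) v) with hSL
  set EL : W' → Set (V → ℝ) := fun i => {g | δ i < |∑ v, B i v * rho a v * X v g|} with hEL
  have hELm : ∀ i, MeasurableSet (EL i) := by
    intro i
    refine measurableSet_lt measurable_const (Continuous.measurable ?_)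
    refine Continuous.abs ?_
    exact continuous_finsetSum _ fun v _ => continuous_const.mul (hXc v)
  have hELdep : ∀ i, ∀ x y : V → ℝ, (∀ u ∈ SL i, x u = y u) → (x ∈ EL i → y ∈ EL i) := by
    intro i x y hxy hx
    have h1 : ∑ v, B i v * rho a v * X v x = ∑ v, B i v * rho a v * X v y := by
      refine Finset.sum_congr rfl fun v _ => ?_
      by_cases hv : B i v = 0
      · rw [hv]; simp
      · have : X v x = X v y := by
          refine XX_dep _ v x y fun u hu => hxy u ?_
          rw [hSL]
          simp only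
          rw [Finset.mem_biUnion]
          exact ⟨v, Finset.mem_filter.2 ⟨Finset.mem_univ _, hv⟩, hu⟩
        rw [this]
    show δ i < |∑ v, B i v * rho a v * X v y|
    rw [← h1]
    exact hx
  have hrho2 : ∀ i, ∑ v, (B i v * rho a v) ^ 2 ≤ ν i := by
    intro i
    refine le_trans (Finset.sum_le_sum fun v _ => ?_) (hBν i)
    have h1 := rho_nonneg ha v
    have h2 := rho_le_one (a := a) v
    rw [mul_pow]
    exact mul_le_of_le_one_right (sq_nonneg _) (by nlinarith)
  have hELp : ∀ i, (gam V).real (EL i) ≤ y i * Real.exp (-(2 * (X' * (Nn i * Bs)))) := by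
    intro i
    rcases hfinL i with hfi | hfi
    · refine le_trans ?_ hfi
      set f : (V → ℝ) → ℝ := fun g => ∑ v, B i v * rho a v * z (M • g) v with hf
      have hfl : Lip (M * Real.sqrt (ν i)) f := by
        intro x y
        have e1 : f x - f y = ∑ v, (B i v * rho a v) * (z (M • x) v - z (M • y) v) := by
          rw [hf]
          simp only
          rw [← Finset.sum_sub_distrib]
          exact Finset.sum_congr rfl fun v _ => by ring
        rw [e1]
        refine (abs_sum_mul_le (fun v => B i v * rho a v) (fun v => z (M • x) v - z (M • y) v)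
          (Real.sqrt (ν i)) (Real.sqrt_nonneg _) ?_).trans ?_
        · rw [Real.sq_sqrt (hν i).le]
          exact hrho2 i
        · have e2 : nrm (fun v => z (M • x) v - z (M • y) v) ≤ M * nrm (x - y) := by
            have e3 := hlip (M • y) (M • x)
            rw [← smul_sub, nrm_smul, abs_of_pos hM0] at e3
            exact e3
          calc Real.sqrt (ν i) * nrm (fun v => z (M • x) v - z (M • y) v)
              ≤ Real.sqrt (ν i) * (M * nrm (x - y)) :=
                mul_le_mul_of_nonneg_left e2 (Real.sqrt_nonneg _)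
            _ = M * Real.sqrt (ν i) * nrm (x - y) := by ring
      have hfo : ∀ x, f (-x) = - f x := by
        intro x
        rw [hf]
        simp only
        rw [← Finset.sum_neg_distrib]
        refine Finset.sum_congr rfl fun v _ => ?_
        rw [smul_neg, hodd]
        show B i v * rho a v * (- z (M • x) v) = _
        ring
      have hνs : 0 < Real.sqrt (ν i) := Real.sqrt_pos.2 (hν i)
      have htl := tail2 hCONC hMOM f (M * Real.sqrt (ν i)) (by positivity) hfl hfo (δ i / 2)
        (by have := hδ i; positivity)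
      have hexp : -(δ i / 2) ^ 2 / (4 * (M * Real.sqrt (ν i)) ^ 2) =
          -(δ i ^ 2 / (16 * M ^ 2 * ν i)) := by
        rw [mul_pow, Real.sq_sqrt (hν i).le]
        have := (hν i).ne'
        field_simp
        ring
      rw [hexp] at htl
      set S := Finset.univ.filter (fun v => B i v ≠ 0) with hS
      have hsub : EL i ⊆ {g | δ i / 2 ≤ |f g|} ∪
          ⋃ v ∈ S, {g | ε + 2 * qb < |X v g - z (M • g) v|} := by
        intro g hg
        by_contra hng
        rw [Set.mem_union, not_or] at hng
        obtain ⟨h1, h3⟩ := hng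
        have h1' : |f g| < δ i / 2 := not_le.1 h1
        have h3' : ∀ v, B i v ≠ 0 → |X v g - z (M • g) v| ≤ 1 / τ := by
          intro v hv
          by_contra h4
          apply h3
          rw [Set.mem_iUnion₂]
          refine ⟨v, by rw [hS, Finset.mem_filter]; exact ⟨Finset.mem_univ _, hv⟩, ?_⟩
          show ε + 2 * qb < |X v g - z (M • g) v|
          exact lt_of_le_of_lt hεq (not_le.1 h4)
        have h4 : |∑ v, B i v * rho a v * X v g - f g| ≤ δ i / 2 := by
          refine le_trans ?_ (hB1 i)
          rw [hf]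
          simp only
          rw [← Finset.sum_sub_distrib, Finset.sum_mul]
          refine (Finset.abs_sum_le_sum_abs _ _).trans (Finset.sum_le_sum fun v _ => ?_)
          by_cases hv : B i v = 0
          · rw [hv]; simp
          · rw [← mul_sub, abs_mul, abs_mul, abs_of_nonneg (rho_nonneg ha v)]
            have g1 := rho_nonneg ha v
            have g2 := rho_le_one (a := a) v
            have g3 := h3' v hv
            have g4 : |B i v| * rho a v ≤ |B i v| := mul_le_of_le_one_right (abs_nonneg _) g2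
            exact mul_le_mul g4 g3 (abs_nonneg _) (abs_nonneg _)
        have hg' : δ i < |∑ v, B i v * rho a v * X v g| := hg
        have h5 := abs_sub_abs_le_abs_sub (∑ v, B i v * rho a v * X v g) (f g)
        linarith
      calc (gam V).real (EL i) ≤ (gam V).real ({g | δ i / 2 ≤ |f g|} ∪
          ⋃ v ∈ S, {g | ε + 2 * qb < |X v g - z (M • g) v|}) := measureReal_mono hsub
        _ ≤ (gam V).real {g | δ i / 2 ≤ |f g|} +
          (gam V).real (⋃ v ∈ S, {g | ε + 2 * qb < |X v g - z (M • g) v|}) :=
            measureReal_union_le _ _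
        _ ≤ 2 * Real.exp (-(δ i ^ 2 / (16 * M ^ 2 * ν i))) + Nn i * δ1 := by
            refine add_le_add htl ?_
            refine (measureReal_biUnion_finset_le _ _).trans ?_
            calc ∑ v ∈ S, (gam V).real {g | ε + 2 * qb < |X v g - z (M • g) v|}
                ≤ ∑ v ∈ S, δ1 := Finset.sum_le_sum fun v _ => hloc v
              _ = S.card * δ1 := by rw [Finset.sum_const, nsmul_eq_mul]
              _ ≤ Nn i * δ1 := mul_le_mul_of_nonneg_right (hBN i) hδ0
    · refine le_trans ?_ hfi
      set f : (V → ℝ) → ℝ := fun g => ∑ v, (B i v * rho a v) * XX z M (ball I (4 * m) v) v g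
        with hf
      have hfl : Lip (M * Real.sqrt (ν i * Bs)) f :=
        XX_sum_lip hM0 hlipv hzb I (4 * m) Bs hball0 (fun v => B i v * rho a v) (ν i) (hν i).le
          (hrho2 i)
      have hfo : ∀ x, f (-x) = - f x := by
        intro x
        rw [hf]
        simp only
        rw [← Finset.sum_neg_distrib]
        refine Finset.sum_congr rfl fun v _ => ?_
        rw [XX_odd hodd]
        ring
      have hνB : 0 < ν i * Bs := mul_pos (hν i) (by linarith)
      have hνs : 0 < Real.sqrt (ν i * Bs) := Real.sqrt_pos.2 hνB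
      have htl := tail2 hCONC hMOM f (M * Real.sqrt (ν i * Bs)) (by positivity) hfl hfo (δ i)
        (hδ i).le
      have hexp : -(δ i) ^ 2 / (4 * (M * Real.sqrt (ν i * Bs)) ^ 2) =
          -(δ i ^ 2 / (4 * M ^ 2 * (ν i * Bs))) := by
        rw [mul_pow, Real.sq_sqrt hνB.le, neg_div]
        congr 2
        ring
      rw [hexp] at htl
      refine le_trans (measureReal_mono ?_) htl
      intro g hg
      have hg' : δ i < |∑ v, B i v * rho a v * X v g| := hg
      exact hg'.le
  -- all events
  set EE : W ⊕ W' → Set (V → ℝ) := Sum.elim E EL with hEE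
  set SS : W ⊕ W' → Finset V := Sum.elim (fun R => rball I (4 * m) R) SL with hSS
  set yy : W ⊕ W' → ℝ := Sum.elim (fun _ => yh) y with hyy
  have hcardSH : ∀ R, ((rball I (4 * m) R).card : ℝ) ≤ D * Bs := by
    intro R
    have h1 : (rball I (4 * m) R) ⊆
        (Finset.univ.filter (fun v => I R v)).biUnion (fun v => ball I (4 * m) v) := by
      intro u hu
      unfold rball at hu
      obtain ⟨v, hv, huv⟩ := (Finset.mem_filter.1 hu).2
      rw [Finset.mem_biUnion]
      exact ⟨v, Finset.mem_filter.2 ⟨Finset.mem_univ _, hv⟩, huv⟩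
    have h2 : ((rball I (4 * m) R).card : ℝ) ≤
        ∑ v ∈ Finset.univ.filter (fun v => I R v), ((ball I (4 * m) v).card : ℝ) := by
      exact_mod_cast (Finset.card_le_card h1).trans Finset.card_biUnion_le
    refine h2.trans ((Finset.sum_le_sum fun v _ => hball0 v).trans ?_)
    rw [Finset.sum_const, nsmul_eq_mul]
    refine mul_le_mul_of_nonneg_right ?_ hBs0
    exact_mod_cast hcardR R
  have hcardSL : ∀ i, ((SL i).card : ℝ) ≤ Nn i * Bs := by
    intro i
    have h2 : ((SL i).card : ℝ) ≤
        ∑ v ∈ Finset.univ.filter (fun v => B i v ≠ 0), ((ball I (4 * m) v).card : ℝ) := by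
      exact_mod_cast Finset.card_biUnion_le
    refine h2.trans ((Finset.sum_le_sum fun v _ => hball0 v).trans ?_)
    rw [Finset.sum_const, nsmul_eq_mul]
    exact mul_le_mul_of_nonneg_right (hBN i) hBs0
  have hXX : ∀ u, ∑ j ∈ Finset.univ.filter (fun j => u ∈ SS j), yy j ≤ X' := by
    intro u
    refine le_trans ?_ hX'
    rw [Finset.sum_filter, Fintype.sum_sum_type]
    have e1 : ∑ R : W, (if u ∈ SS (Sum.inl R) then yy (Sum.inl R) else 0) ≤ Bs * (D * yh) := by
      show ∑ R : W, (if u ∈ rball I (4 * m) R then yh else 0) ≤ Bs * (D * yh)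
      rw [← Finset.sum_filter, Finset.sum_const, nsmul_eq_mul, ← mul_assoc]
      refine mul_le_mul_of_nonneg_right ?_ hyh0
      have h1 : Finset.univ.filter (fun R => u ∈ rball I (4 * m) R) ⊆
          (ball I (4 * m) u).biUnion (fun v => Finset.univ.filter (fun R => I R v)) := by
        intro R hR
        have hR2 := (Finset.mem_filter.1 hR).2
        unfold rball at hR2
        obtain ⟨v, hv, huv⟩ := (Finset.mem_filter.1 hR2).2
        rw [Finset.mem_biUnion]
        exact ⟨v, ball_symm I (4 * m) u v huv, Finset.mem_filter.2 ⟨Finset.mem_univ _, hv⟩⟩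
      have h2 : ((Finset.univ.filter (fun R => u ∈ rball I (4 * m) R)).card : ℝ) ≤
          ∑ v ∈ ball I (4 * m) u, ((Finset.univ.filter (fun R => I R v)).card : ℝ) := by
        exact_mod_cast (Finset.card_le_card h1).trans Finset.card_biUnion_le
      refine h2.trans ?_
      calc ∑ v ∈ ball I (4 * m) u, ((Finset.univ.filter (fun R => I R v)).card : ℝ)
          ≤ ∑ v ∈ ball I (4 * m) u, (D : ℝ) :=
            Finset.sum_le_sum fun v _ => by exact_mod_cast hcardV v
        _ = (ball I (4 * m) u).card * D := by rw [Finset.sum_const, nsmul_eq_mul]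
        _ ≤ Bs * D := mul_le_mul_of_nonneg_right (hball0 u) (Nat.cast_nonneg _)
    have e2 : ∑ i : W', (if u ∈ SS (Sum.inr i) then yy (Sum.inr i) else 0) ≤ Bs * Y := by
      show ∑ i : W', (if u ∈ SL i then y i else 0) ≤ Bs * Y
      have h1 : ∀ i : W', (if u ∈ SL i then y i else 0) ≤
          ∑ v ∈ ball I (4 * m) u, (if B i v ≠ 0 then y i else 0) := by
        intro i
        have hnn : ∀ v ∈ ball I (4 * m) u, 0 ≤ (if B i v ≠ 0 then y i else 0) := by
          intro v _
          split_ifs
          · exact hy0 i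
          · exact le_rfl
        split_ifs with hu
        · rw [hSL] at hu
          simp only at hu
          rw [Finset.mem_biUnion] at hu
          obtain ⟨v, hv, huv⟩ := hu
          have hv2 := (Finset.mem_filter.1 hv).2
          have h3 := Finset.single_le_sum (f := fun v => if B i v ≠ 0 then y i else 0) hnn
            (ball_symm I (4 * m) u v huv)
          rw [if_pos hv2] at h3
          exact h3
        · exact Finset.sum_nonneg hnn
      have hY0 : 0 ≤ Y := by
        refine le_trans ?_ (hY u)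
        exact Finset.sum_nonneg fun i _ => hy0 i
      calc ∑ i : W', (if u ∈ SL i then y i else 0)
          ≤ ∑ i : W', ∑ v ∈ ball I (4 * m) u, (if B i v ≠ 0 then y i else 0) :=
            Finset.sum_le_sum fun i _ => h1 i
        _ = ∑ v ∈ ball I (4 * m) u, ∑ i : W', (if B i v ≠ 0 then y i else 0) :=
            Finset.sum_comm
        _ ≤ ∑ v ∈ ball I (4 * m) u, Y := by
            refine Finset.sum_le_sum fun v _ => ?_
            rw [← Finset.sum_filter]
            exact hY v
        _ = (ball I (4 * m) u).card * Y := by rw [Finset.sum_const, nsmul_eq_mul]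
        _ ≤ Bs * Y := mul_le_mul_of_nonneg_right (hball0 u) hY0
    calc _ ≤ Bs * (D * yh) + Bs * Y := add_le_add e1 e2
      _ = Bs * (D * yh + Y) := by ring
  obtain ⟨g, hg⟩ := wlll hmix (fun _ : V => gaussianReal 0 1) EE SS
    (by
      intro j
      rcases j with R | i
      · exact hEm R
      · exact hELm i)
    (by
      intro j
      rcases j with R | i
      · exact hEdep R
      · exact hELdep i)
    yy
    (by
      intro j
      rcases j with R | i
      · exact hyh0
      · exact hy0 i)
    (by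
      intro j
      rcases j with R | i
      · exact hyh1
      · exact hy1 i)
    X' hXX
    (by
      intro j
      rcases j with R | i
      · refine (hEp R).trans (hfinH.trans ?_)
        refine mul_le_mul_of_nonneg_left ?_ hyh0
        rw [Real.exp_le_exp]
        have h1 : X' * ((rball I (4 * m) R).card : ℝ) ≤ X' * (D * Bs) := by
          exact mul_le_mul_of_nonneg_left (hcardSH R) hX0
        show -(2 * (X' * (D * Bs))) ≤ -(2 * (X' * ((rball I (4 * m) R).card : ℝ)))
        linarith
      · refine (hELp i).trans ?_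
        refine mul_le_mul_of_nonneg_left ?_ (hy0 i)
        rw [Real.exp_le_exp]
        have h1 : X' * ((SL i).card : ℝ) ≤ X' * (Nn i * Bs) :=
          mul_le_mul_of_nonneg_left (hcardSL i) hX0
        show -(2 * (X' * (Nn i * Bs))) ≤ -(2 * (X' * ((SL i).card : ℝ)))
        linarith)
  have hgH : ∀ R, g ∉ E R := fun R => hg (Sum.inl R)
  have hgL : ∀ i, g ∉ EL i := fun i => hg (Sum.inr i)
  -- the new state
  refine ⟨nw a (fun v => X v g), nw_abs ha _ (fun v => hXb v g), fun R => ?_, fun R => ?_,
    fun i => ?_⟩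
  · refine (nw_Phi ha _ (fun v => hXb v g) R).trans ?_
    by_contra h1
    exact hgH R (Or.inl (not_le.1 h1))
  · rw [nw_disc hs, abs_mul, abs_of_nonneg (Real.sqrt_nonneg s), mul_comm]
    refine mul_le_mul_of_nonneg_right ?_ (Real.sqrt_nonneg s)
    by_contra h1
    exact hgH R (Or.inr (not_le.1 h1))
  · have e1 : ∑ v, B i v * (nw a (fun v => X v g) v - a v) = ∑ v, B i v * rho a v * X v g := by
      refine Finset.sum_congr rfl fun v _ => ?_
      unfold nw
      ring
    rw [e1]
    by_contra h1
    exact hgL i (not_le.1 h1)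

end Pool.Agent.Q271.LD3
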