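import Pool.Agent.H320R2.LD.PARAM

set_option autoImplicit false

/-!
# Numerical inequalities for one phase, general exponents
-/

open Filter

namespace Pool.Agent.Q271.LD3

open Pool.Agent.H320R2.LD.PARAM

noncomputable section

/-- admissible exponents -/
structure Good (p x g θ a b σ : ℝ) : Prop where
  x0 : 0 < x
  g0 : 0 < g
  p1 : 1 ≤ p
  xθ : x + 4 * g ≤ 2 * θ
  θ4 : θ ≤ 1 / 4
  pa : p + σ + 4 * θ + g ≤ 2 * a
  ab : a + x + g ≤ b
  bσ : b + x + 4 * g ≤ 1 - σ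
  xσ : x + g ≤ σ
  σ3 : σ ≤ 1 / 3

theorem good_exists (p x : ℝ) (hp : 1 ≤ p) (hx : 0 < x) (hpx : x < (2 - p) / 9) :
    ∃ g θ a b σ : ℝ, Good p x g θ a b σ := by
  refine ⟨(2 - p - 9 * x) / 44, x / 2 + 2 * ((2 - p - 9 * x) / 44),
    p / 2 + 3 / 2 * x + 5 * ((2 - p - 9 * x) / 44), p / 2 + 5 / 2 * x + 6 * ((2 - p - 9 * x) / 44),
    x + (2 - p - 9 * x) / 44, ?_⟩
  refine ⟨hx, by linarith, hp, by linarith, by linarith, by linarith, by linarith, by linarith,
    by linarith, by linarith⟩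

/-- largeness -/
def Big3 (g t : ℝ) : Prop :=
  (10 : ℝ) ^ 12 ≤ t ∧ (10 : ℝ) ^ 15 ≤ t ^ g ∧ Real.log t ≤ t ^ g

theorem ev_big3 (g : ℝ) (hg : 0 < g) : ∀ᶠ t : ℝ in atTop, Big3 g t := by
  filter_upwards [eventually_ge_atTop ((10:ℝ) ^ 12), ev_rpow g (10 ^ 15) hg,
    ev_log g 1 hg one_pos] with t h1 h2 h3
  rw [one_mul] at h3
  exact ⟨h1, h2, h3⟩

theorem Big3.mono {g g' t : ℝ} (h : Big3 g t) (hg : g ≤ g') : Big3 g' t := by
  obtain ⟨h1, h2, h3⟩ := h
  have ht1 : 1 ≤ t := by linarith [show (1:ℝ) ≤ 10 ^ 12 by norm_num]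
  have := Real.rpow_le_rpow_of_exponent_le ht1 hg
  exact ⟨h1, h2.trans this, h3.trans this⟩

theorem param3 {p x g θ a b σ t : ℝ} (e : Good p x g θ a b σ) (hx : Big3 x t) (h : Big3 g t)
    (s : ℝ) (hs1 : t ^ (-σ) ≤ s) (D m : ℕ)
    (hD : D = ⌊Real.exp (t ^ x)⌋₊) (hm : m = ⌈t ^ b⌉₊) :
    1 ≤ m ∧ t ^ (-(1/4) : ℝ) ≤ 1/1000 ∧ 2 * (1 + 2 * (400 : ℝ)) ≤ t ^ θ ∧
    t ^ (-(1/4) : ℝ) ≤ (t ^ θ)⁻¹ ∧ t ^ (-a) ≤ 1 ∧
    8 * (t ^ (-a)) ^ 2 * (t ^ θ) ^ 4 * (t ^ p / s) ≤ 1 ∧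
    (2 * (D : ℝ) ^ 2) ^ (4 * m) * Real.exp (-(m : ℝ) * (t ^ θ) ^ 2 / (4 * 400 ^ 2))
      ≤ (Real.exp (-t ^ (b + x + 3 * g))) ^ 2 ∧
    1000 ≤ Real.exp (t ^ x) ∧
    Real.exp (-t ^ x) / 2 + 2 * Real.exp (-t ^ (b + x + 3 * g)) ≤ 1 / Real.exp (t ^ x) ∧
    Real.sqrt D / Real.exp (t ^ x) ≤ 1 ∧
    (((D ^ 2 + 1) ^ (4 * m) : ℕ) : ℝ) ≤ Real.exp (t ^ (b + x + g)) ∧
    Real.exp (-t ^ (b + x + 2 * g)) ≤ 1 / 2 ∧
    Real.exp (-(1 / 10 ^ 12 * (s * t))) + 2 * Real.exp (-(((t ^ (-(1/4) : ℝ))⁻¹) ^ 4 / 400 ^ 2)) +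
      D * (2 * Real.exp (-t ^ (b + x + 3 * g)) + 2 * Real.exp (-((Real.exp (-t ^ x) / 2) ^ 2 *
      Real.exp (4 * t ^ (-a) * m) / (16 * 400 ^ 2)))) ≤
      Real.exp (-t ^ (b + x + 2 * g)) * Real.exp (-(2 * ((Real.exp (t ^ (b + x + g)) *
        (D * Real.exp (-t ^ (b + x + 2 * g)) + 0)) * (D * Real.exp (t ^ (b + x + g)))))) := by
  obtain ⟨e1, e2, e3, e4, e5, e6, e7, e8, e9, e10⟩ := e
  obtain ⟨h1, h2, h3⟩ := h
  have hX15 := hx.2.1
  have ht1 : 1 ≤ t := by linarith [show (1:ℝ) ≤ 10 ^ 12 by norm_num]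
  have ht0 : 0 < t := by linarith
  have hap : 0 < a := by nlinarith
  have hθp : 0 < θ := by linarith
  set X := t ^ x with hX
  set G := t ^ g with hG
  set A := t ^ b with hA
  have hGp : 0 < G := by positivity
  have hXp : 0 < X := by positivity
  have hA1 : 1 ≤ A := Real.one_le_rpow ht1 (by linarith)
  have hT1 : t ^ (b + x + g) = A * X * G := by
    rw [hA, hX, hG, ← Real.rpow_add ht0, ← Real.rpow_add ht0]
  have hT2 : t ^ (b + x + 2 * g) = A * X * G * G := by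
    rw [← hT1, hG, ← Real.rpow_add ht0]; congr 1; ring
  have hT3 : t ^ (b + x + 3 * g) = A * X * G * G * G := by
    rw [← hT2, hG, ← Real.rpow_add ht0]; congr 1; ring
  have hU : A * X * G * G * G * G ≤ t ^ (1 - σ) := by
    calc A * X * G * G * G * G = t ^ (b + x + 4 * g) := by
          rw [← hT3, hG, ← Real.rpow_add ht0]; congr 1; ring
      _ ≤ t ^ (1 - σ) := Real.rpow_le_rpow_of_exponent_le ht1 e8
  have hUt : t ^ (1 - σ) ≤ t := by
    calc t ^ (1 - σ) ≤ t ^ (1:ℝ) := Real.rpow_le_rpow_of_exponent_le ht1 (by linarith)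
      _ = t := Real.rpow_one t
  rw [hT1, hT2, hT3]
  set T := A * X * G with hT
  have hAX : (10:ℝ) ^ 15 ≤ A * X := by nlinarith
  have hTp : (10:ℝ) ^ 30 ≤ T := by
    calc (10:ℝ) ^ 30 = 10 ^ 15 * 10 ^ 15 := by norm_num
      _ ≤ (A * X) * G := mul_le_mul hAX h2 (by norm_num) (by positivity)
  have hTX : X ≤ T := by
    have : X * 1 ≤ (A * X) * G := by
      refine mul_le_mul ?_ (le_trans (by norm_num) h2) (by norm_num) (by positivity)
      nlinarith
    linarith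
  have hTG : (10:ℝ) ^ 15 * T ≤ T * G := by nlinarith
  have hTGG : (10:ℝ) ^ 15 * (T * G) ≤ T * G * G := by nlinarith [mul_pos (show 0 < T by linarith [show (0:ℝ) < 10 ^ 30 by norm_num]) hGp]
  have hTpos : 0 < T := by linarith [show (0:ℝ) < 10 ^ 30 by norm_num]
  have hTGpos : 0 < T * G := mul_pos hTpos hGp
  have hTGGpos : 0 < T * G * G := mul_pos hTGpos hGp
  -- D
  have hDle : (D : ℝ) ≤ Real.exp X := by
    rw [hD]; exact Nat.floor_le (Real.exp_pos _).le
  have hDsq : (D : ℝ) ^ 2 ≤ Real.exp (2 * X) := by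
    calc (D : ℝ) ^ 2 ≤ (Real.exp X) ^ 2 := pow_le_pow_left₀ (by positivity) hDle 2
      _ = Real.exp (2 * X) := by rw [← Real.exp_nat_mul]; congr 1
  have h2e : (2:ℝ) ≤ Real.exp X := by
    have := Real.add_one_le_exp X
    linarith [show (2:ℝ) ≤ 10 ^ 15 by norm_num]
  -- m
  have hm1 : A ≤ m := by rw [hm]; exact Nat.le_ceil _
  have hm2 : (m : ℝ) ≤ 2 * A := by
    have : (m : ℝ) < A + 1 := by rw [hm]; exact Nat.ceil_lt_add_one (by positivity)
    linarith
  have hmpos : (1 : ℝ) ≤ m := hA1.trans hm1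
  have hm1n : 1 ≤ m := by exact_mod_cast hmpos
  have h25 : t ^ (-(1/4) : ℝ) = (t ^ (1/4 : ℝ))⁻¹ := by
    rw [Real.rpow_neg ht0.le]
  have h14 : 1000 ≤ t ^ (1/4 : ℝ) := by
    calc (1000 : ℝ) = ((10:ℝ) ^ 12) ^ (1/4 : ℝ) := by
          rw [← Real.rpow_natCast, ← Real.rpow_mul (by norm_num)]
          rw [show (((12 : ℕ) : ℝ) * (1/4)) = ((3 : ℕ) : ℝ) by norm_num, Real.rpow_natCast]
          norm_num
      _ ≤ t ^ (1/4 : ℝ) := Real.rpow_le_rpow (by norm_num) h1 (by norm_num)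
  have hs0 : 0 < s := lt_of_lt_of_le (by positivity) hs1
  have hst : t ^ (1 - σ) ≤ s * t := by
    have : t ^ (1 - σ) = t ^ (-σ) * t := by
      nth_rewrite 3 [← Real.rpow_one t]
      rw [← Real.rpow_add ht0]; congr 1; ring
    rw [this]
    exact mul_le_mul_of_nonneg_right hs1 ht0.le
  have hinvs : 1 / s ≤ t ^ σ := by
    rw [div_le_iff₀ hs0]
    have : t ^ σ * t ^ (-σ) = 1 := by
      rw [← Real.rpow_add ht0, add_neg_cancel, Real.rpow_zero]
    calc (1:ℝ) = t ^ σ * t ^ (-σ) := this.symm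
      _ ≤ t ^ σ * s := mul_le_mul_of_nonneg_left hs1 (by positivity)
  have hGG : G * G ≤ t ^ θ := by
    rw [hG, ← Real.rpow_add ht0]
    exact Real.rpow_le_rpow_of_exponent_le ht1 (by linarith)
  have hθ2 : X * (G * G * G * G) ≤ (t ^ θ) ^ 2 := by
    have : X * (G * G * G * G) = t ^ (x + 4 * g) := by
      rw [hX, hG, ← Real.rpow_add ht0, ← Real.rpow_add ht0, ← Real.rpow_add ht0,
        ← Real.rpow_add ht0]
      congr 1; ring
    rw [this, ← Real.rpow_natCast, ← Real.rpow_mul ht0.le]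
    refine Real.rpow_le_rpow_of_exponent_le ht1 ?_
    push_cast
    linarith
  have hD3 : 2 * (D : ℝ) ^ 2 ≤ Real.exp (3 * X) := by
    calc 2 * (D : ℝ) ^ 2 ≤ Real.exp X * Real.exp (2 * X) :=
          mul_le_mul h2e hDsq (by positivity) (Real.exp_pos _).le
      _ = Real.exp (3 * X) := by rw [← Real.exp_add]; ring_nf
  have hqbX : 2 * Real.exp (-(T * G * G)) ≤ Real.exp (-X) / 2 := by
    have e4 : (4:ℝ) ≤ Real.exp 3 := by linarith [Real.add_one_le_exp (3:ℝ)]
    have h5 : Real.exp (-(T * G * G)) * Real.exp 3 ≤ Real.exp (-X) := by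
      rw [← Real.exp_add, Real.exp_le_exp]
      linarith [show (3:ℝ) ≤ 10 ^ 30 by norm_num]
    have h6 := Real.exp_pos (-(T * G * G))
    nlinarith
  refine ⟨hm1n, ?_, ?_, ?_, ?_, ?_, ?_, ?_, ?_, ?_, ?_, ?_, ?_⟩
  · rw [h25]
    rw [show (1/1000 : ℝ) = (1000 : ℝ)⁻¹ by norm_num]
    exact inv_anti₀ (by norm_num) h14
  · nlinarith
  · rw [← Real.rpow_neg ht0.le]
    exact Real.rpow_le_rpow_of_exponent_le ht1 (by linarith)
  · exact Real.rpow_le_one_of_one_le_of_nonpos ht1 (by linarith)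
  · have e1 : t ^ p / s ≤ t ^ p * t ^ σ := by
      rw [div_eq_mul_one_div]
      exact mul_le_mul_of_nonneg_left hinvs (by positivity)
    have f2 : 8 * (t ^ (-a)) ^ 2 * (t ^ θ) ^ 4 * (t ^ p / s)
        ≤ 8 * (t ^ (-a)) ^ 2 * (t ^ θ) ^ 4 * (t ^ p * t ^ σ) :=
      mul_le_mul_of_nonneg_left e1 (by positivity)
    refine f2.trans ?_
    have f3 : (t ^ (-a)) ^ 2 * (t ^ θ) ^ 4 * (t ^ p * t ^ σ) = t ^ (-(2 * a) + 4 * θ + (p + σ)) := by
      rw [← Real.rpow_natCast, ← Real.rpow_natCast (t ^ θ), ← Real.rpow_mul ht0.le,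
        ← Real.rpow_mul ht0.le, ← Real.rpow_add ht0, ← Real.rpow_add ht0, ← Real.rpow_add ht0]
      congr 1
      push_cast
      ring
    have f4 : t ^ (-(2 * a) + 4 * θ + (p + σ)) ≤ t ^ (-g) :=
      Real.rpow_le_rpow_of_exponent_le ht1 (by linarith)
    have f5 : t ^ (-g) = G⁻¹ := by rw [Real.rpow_neg ht0.le]
    calc 8 * (t ^ (-a)) ^ 2 * (t ^ θ) ^ 4 * (t ^ p * t ^ σ)
        = 8 * ((t ^ (-a)) ^ 2 * (t ^ θ) ^ 4 * (t ^ p * t ^ σ)) := by ring
      _ ≤ 8 * G⁻¹ := by rw [f3, ← f5]; exact mul_le_mul_of_nonneg_left f4 (by norm_num)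
      _ ≤ 1 := by
          rw [← div_eq_mul_inv, div_le_one hGp]
          exact le_trans (by norm_num) h2
  · -- path
    have f2 : (2 * (D : ℝ) ^ 2) ^ (4 * m) ≤ Real.exp (12 * m * X) := by
      calc (2 * (D : ℝ) ^ 2) ^ (4 * m) ≤ (Real.exp (3 * X)) ^ (4 * m) :=
            pow_le_pow_left₀ (by positivity) hD3 _
        _ = Real.exp (12 * m * X) := by
            rw [← Real.exp_nat_mul]; push_cast; ring_nf
    refine (mul_le_mul_of_nonneg_right f2 (Real.exp_pos _).le).trans ?_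
    rw [← Real.exp_add, ← Real.exp_nat_mul]
    apply Real.exp_le_exp.mpr
    have f4 : (m:ℝ) * X * (G * G * G * G) ≤ m * (t ^ θ) ^ 2 := by
      calc (m:ℝ) * X * (G * G * G * G) = m * (X * (G * G * G * G)) := by ring
        _ ≤ _ := mul_le_mul_of_nonneg_left hθ2 (by linarith)
    have f5 : 2 * (T * G * G) + 12 * m * X ≤ m * X * (G * G * G * G) / (4 * 400 ^ 2) := by
      rw [le_div_iff₀ (by norm_num)]
      have g1 : T * G * G ≤ m * X * (G * G * G) := by
        rw [hT]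
        calc A * X * G * G * G = A * (X * (G * G * G)) := by ring
          _ ≤ m * (X * (G * G * G)) := mul_le_mul_of_nonneg_right hm1 (by positivity)
          _ = _ := by ring
      have g2 : 0 < (m:ℝ) * X := by positivity
      have g3 : (1:ℝ) ≤ G * G * G := by
        have : (1:ℝ) ≤ G := le_trans (by norm_num) h2
        nlinarith [mul_le_mul this this zero_le_one hGp.le]
      have g4 : (m:ℝ) * X * (G * G * G) * G = m * X * (G * G * G * G) := by ring
      have g5 : (m:ℝ) * X ≤ m * X * (G * G * G) := le_mul_of_one_le_right g2.le g3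
      have g6 : (m:ℝ) * X * (G * G * G) * 10 ^ 15 ≤ m * X * (G * G * G) * G :=
        mul_le_mul_of_nonneg_left h2 (by positivity)
      nlinarith
    have f6 : -(m:ℝ) * (t ^ θ) ^ 2 / (4 * 400 ^ 2) ≤ -(m * X * (G * G * G * G) / (4 * 400 ^ 2)) := by
      rw [neg_mul, neg_div, neg_le_neg_iff]
      exact div_le_div_of_nonneg_right f4 (by norm_num)
    push_cast
    linarith
  · have := Real.add_one_le_exp X
    linarith [show (1000:ℝ) ≤ 10 ^ 15 by norm_num]
  · rw [one_div, ← Real.exp_neg]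
    linarith
  · rw [div_le_one (Real.exp_pos _)]
    rw [Real.sqrt_le_left (Real.exp_pos _).le]
    calc (D:ℝ) ≤ Real.exp X := hDle
      _ ≤ Real.exp X ^ 2 := le_self_pow₀ (by linarith) (by norm_num)
  · -- ball size
    have g1 : ((D : ℝ) ^ 2 + 1) ≤ Real.exp (3 * X) := by
      have h3e : 1 ≤ Real.exp (2 * X) := Real.one_le_exp (by positivity)
      calc (D : ℝ) ^ 2 + 1 ≤ Real.exp (2 * X) + Real.exp (2 * X) := by linarith
        _ = 2 * Real.exp (2 * X) := by ring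
        _ ≤ Real.exp X * Real.exp (2 * X) := mul_le_mul_of_nonneg_right h2e (Real.exp_pos _).le
        _ = Real.exp (3 * X) := by rw [← Real.exp_add]; ring_nf
    push_cast
    calc ((D : ℝ) ^ 2 + 1) ^ (4 * m) ≤ (Real.exp (3 * X)) ^ (4 * m) :=
          pow_le_pow_left₀ (by positivity) g1 _
      _ = Real.exp (12 * m * X) := by
          rw [← Real.exp_nat_mul]; push_cast; ring_nf
      _ ≤ Real.exp T := by
          apply Real.exp_le_exp.mpr
          have k1 : 12 * (m:ℝ) * X ≤ 24 * (A * X) := by nlinarith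
          have k2 : 24 * (A * X) ≤ A * X * G := by
            have : (A * X) * 24 ≤ (A * X) * G :=
              mul_le_mul_of_nonneg_left (le_trans (by norm_num) h2) (by positivity)
            linarith
          linarith
  · have e3 : Real.exp (-(T * G)) ≤ Real.exp (-1) := by
      rw [Real.exp_le_exp]
      linarith [show (1:ℝ) ≤ 10 ^ 30 by norm_num]
    have e4 : Real.exp (-1) ≤ 1 / 2 := by
      rw [Real.exp_neg, one_div]
      exact inv_anti₀ (by norm_num) (by linarith [Real.add_one_le_exp (1:ℝ)])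
    linarith
  · -- heavy rows
    have e0 : ((t ^ (-(1/4) : ℝ))⁻¹) ^ 4 = t := by
      rw [h25, inv_inv, ← Real.rpow_natCast, ← Real.rpow_mul ht0.le]; norm_num
    rw [e0]
    have hG15 : (10:ℝ) ^ 15 * (T * G * G) ≤ t ^ (1 - σ) := by
      calc (10:ℝ) ^ 15 * (T * G * G) ≤ G * (T * G * G) :=
            mul_le_mul_of_nonneg_right h2 hTGGpos.le
        _ = A * X * G * G * G * G := by rw [hT]; ring
        _ ≤ _ := hU
    have hT10 : T * G + 10 + X ≤ T * G * G := by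
      linarith [show (10:ℝ) ≤ 10 ^ 30 by norm_num]
    have a1 : Real.exp (-(1 / 10 ^ 12 * (s * t))) ≤ Real.exp (-(T * G + 10)) := by
      rw [Real.exp_le_exp]
      have : 1 / 10 ^ 12 * ((10:ℝ) ^ 15 * (T * G * G)) ≤ 1 / 10 ^ 12 * (s * t) :=
        mul_le_mul_of_nonneg_left (hG15.trans hst) (by norm_num)
      have h9 : 1 / 10 ^ 12 * ((10:ℝ) ^ 15 * (T * G * G)) = 1000 * (T * G * G) := by ring
      linarith
    have a2 : Real.exp (-(t / 400 ^ 2)) ≤ Real.exp (-(T * G + 10)) := by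
      rw [Real.exp_le_exp]
      have : (10:ℝ) ^ 15 * (T * G * G) / 400 ^ 2 ≤ t / 400 ^ 2 :=
        div_le_div_of_nonneg_right (hG15.trans hUt) (by norm_num)
      have h9 : (10:ℝ) ^ 15 * (T * G * G) / 400 ^ 2 = 6250000000 * (T * G * G) := by ring
      linarith
    have t4 : Real.exp (-((Real.exp (-X) / 2) ^ 2 * Real.exp (4 * t ^ (-a) * m) / (16 * 400 ^ 2)))
        ≤ Real.exp (-(T * G * G)) := by
      apply Real.exp_le_exp.mpr
      rw [neg_le_neg_iff, le_div_iff₀ (by norm_num)]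
      have f1 : X * G ≤ t ^ (-a) * m := by
        calc X * G = t ^ (x + g) := by rw [hX, hG, ← Real.rpow_add ht0]
          _ ≤ t ^ (-a + b) := Real.rpow_le_rpow_of_exponent_le ht1 (by linarith)
          _ = t ^ (-a) * A := by rw [Real.rpow_add ht0]
          _ ≤ t ^ (-a) * m := mul_le_mul_of_nonneg_left hm1 (by positivity)
      have f2 : Real.exp (4 * (X * G)) ≤ Real.exp (4 * t ^ (-a) * m) := by
        rw [Real.exp_le_exp]; linarith
      have f3 : (Real.exp (-X) / 2) ^ 2 = Real.exp (-(2 * X)) / 4 := by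
        rw [div_pow, ← Real.exp_nat_mul]
        norm_num
      have f4 : T * G * G ≤ t := by
        have : (10:ℝ) ^ 15 * (T * G * G) ≤ t := hG15.trans hUt
        linarith
      have f5 : t = Real.exp (Real.log t) := (Real.exp_log ht0).symm
      have f6 : (4 * (16 * 400 ^ 2) : ℝ) ≤ Real.exp 20 := by
        have : (2:ℝ) ≤ Real.exp 1 := by linarith [Real.add_one_le_exp (1:ℝ)]
        have h5 : Real.exp 20 = Real.exp 1 ^ 20 := by rw [← Real.exp_nat_mul]; norm_num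
        have h6 : (2.7:ℝ) ≤ Real.exp 1 := by linarith [Real.exp_one_gt_d9]
        rw [h5]
        calc (4 * (16 * 400 ^ 2) : ℝ) ≤ 2.7 ^ 20 := by norm_num
          _ ≤ Real.exp 1 ^ 20 := pow_le_pow_left₀ (by norm_num) h6 20
      have f7 : T * G * G * (16 * 400 ^ 2) * 4 ≤ Real.exp (Real.log t + 20) := by
        rw [Real.exp_add, ← f5]
        calc T * G * G * (16 * 400 ^ 2) * 4 = (T * G * G) * (4 * (16 * 400 ^ 2)) := by ring
          _ ≤ t * Real.exp 20 := mul_le_mul f4 f6 (by norm_num) ht0.le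
      have f8 : Real.exp (Real.log t + 20) ≤ Real.exp (-(2 * X)) * Real.exp (4 * (X * G)) := by
        rw [← Real.exp_add, Real.exp_le_exp]
        have g1 : X * 10 ^ 15 ≤ X * G := mul_le_mul_of_nonneg_left h2 hXp.le
        have g2 : G ≤ X * G := le_mul_of_one_le_left hGp.le (le_trans (by norm_num) hX15)
        linarith [show (20:ℝ) ≤ 10 ^ 15 by norm_num]
      rw [f3]
      have f9 : Real.exp (-(2 * X)) * Real.exp (4 * (X * G)) ≤
          Real.exp (-(2 * X)) * Real.exp (4 * t ^ (-a) * m) :=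
        mul_le_mul_of_nonneg_left f2 (Real.exp_pos _).le
      linarith
    have a3 : (D:ℝ) * (2 * Real.exp (-(T * G * G)) + 2 * Real.exp (-((Real.exp (-X) / 2) ^ 2 *
      Real.exp (4 * t ^ (-a) * m) / (16 * 400 ^ 2)))) ≤ 4 * Real.exp (-(T * G + 10)) := by
      calc (D:ℝ) * (2 * Real.exp (-(T * G * G)) + 2 * Real.exp (-((Real.exp (-X) / 2) ^ 2 *
            Real.exp (4 * t ^ (-a) * m) / (16 * 400 ^ 2))))
          ≤ Real.exp X * (4 * Real.exp (-(T * G * G))) :=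
            mul_le_mul hDle (by linarith) (by positivity) (Real.exp_pos _).le
        _ = 4 * Real.exp (X + -(T * G * G)) := by rw [Real.exp_add]; ring
        _ ≤ 4 * Real.exp (-(T * G + 10)) := by
            refine mul_le_mul_of_nonneg_left ?_ (by norm_num)
            rw [Real.exp_le_exp]
            linarith
    have a4 : 7 * Real.exp (-(T * G + 10)) ≤ Real.exp (-(T * G)) * Real.exp (-2) := by
      have e8 : (7:ℝ) ≤ Real.exp 8 := by linarith [Real.add_one_le_exp (8:ℝ)]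
      calc 7 * Real.exp (-(T * G + 10)) ≤ Real.exp 8 * Real.exp (-(T * G + 10)) :=
            mul_le_mul_of_nonneg_right e8 (Real.exp_pos _).le
        _ = Real.exp (-(T * G)) * Real.exp (-2) := by
            rw [← Real.exp_add, ← Real.exp_add]; congr 1; ring
    have a5 : (Real.exp T * (D * Real.exp (-(T * G)) + 0)) * (D * Real.exp T) ≤ 1 := by
      rw [add_zero]
      calc (Real.exp T * (D * Real.exp (-(T * G)))) * (D * Real.exp T)
          ≤ (Real.exp T * (Real.exp X * Real.exp (-(T * G)))) * (Real.exp X * Real.exp T) := by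
            gcongr
        _ = Real.exp ((T + (X + -(T * G))) + (X + T)) := by
            rw [← Real.exp_add, ← Real.exp_add, ← Real.exp_add, ← Real.exp_add]
        _ ≤ 1 := by
            rw [Real.exp_le_one_iff]
            linarith
    have a6 : Real.exp (-(T * G)) * Real.exp (-2) ≤
        Real.exp (-(T * G)) * Real.exp (-(2 * ((Real.exp T *
          (D * Real.exp (-(T * G)) + 0)) * (D * Real.exp T)))) := by
      refine mul_le_mul_of_nonneg_left ?_ (Real.exp_pos _).le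
      rw [Real.exp_le_exp]
      linarith
    linarith

end

end Pool.Agent.Q271.LD3
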