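import Pool.Agent.Q271.LD3.Core3
import Pool.Agent.Q271.LD3.Params3

set_option autoImplicit false

/-!
# One phase for matrices with large supports
-/

open MeasureTheory ProbabilityTheory

namespace Pool.Agent.Q271.LD3

open Pool.Agent.H320R2.LD Pool.Agent.H320R2.LD.PHASE

open Classical in
/-- admissible matrices with supports up to `exp (t^x)` and operator norm squared at most `t^p` -/
def Adm3 {V W : Type} [Fintype V] [Fintype W] (t p x : ℝ) (A : W → V → ℝ) : Prop :=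
  (∀ R v, A R v ^ 2 * t ≤ 1) ∧ (∀ R, ∑ v, A R v ^ 2 ≤ 1) ∧ (∀ v, ∑ R, A R v ^ 2 ≤ 1) ∧
    (∀ R, ((Finset.univ.filter (fun v => A R v ≠ 0)).card : ℝ) ≤ Real.exp (t ^ x)) ∧
    (∀ v, ((Finset.univ.filter (fun R => A R v ≠ 0)).card : ℝ) ≤ Real.exp (t ^ x)) ∧
    ∀ y : V → ℝ, ∑ R, (∑ v, |A R v| * |y v|) ^ 2 ≤ t ^ p * nsq y

/-- PHASE3 -/
def St_PHASE3 (p x σ : ℝ) : Prop := ∃ C t0 : ℝ, 0 < C ∧ 2 ≤ t0 ∧ ∀ (t s : ℝ), t0 ≤ t →
  t ^ (-σ) ≤ s → s ≤ 1 → ∀ (V W : Type) [Fintype V] [Fintype W]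
  (A : W → V → ℝ) (a : V → ℝ), Adm3 t p x A → (∀ v, |a v| ≤ 1) → (∀ R, Phi A a R ≤ s) →
  ∃ a' : V → ℝ, (∀ v, |a' v| ≤ 1) ∧ (∀ R, Phi A a' R ≤ 4/5 * s) ∧
    ∀ R, |∑ v, A R v * (a' v - a v)| ≤ C * s ^ (1/4 : ℝ)

/-- The phase lemma. -/
theorem prove_PHASE3 {p x g θ α β σ : ℝ} (hgood : Good p x g θ α β σ) (hmix : St_MIX)
    (hEX : St_EX) (hSOL : St_SOL) (hLOC : St_LOC)
    (hFAR : St_FAR) (hEH : St_EH) (hMEAN : St_MEAN)
    (hGEX : St_GEX) (hCONC : St_CONC) (hMOM : St_MOM) (hPOT1 : St_POT1) : St_PHASE3 p x σ := by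
  classical
  obtain ⟨Ch, hCh, hEH'⟩ := hEH 400 (by norm_num)
  obtain ⟨t1, ht1⟩ := Filter.eventually_atTop.mp
    ((ev_big3 g hgood.g0).and (ev_big3 x hgood.x0))
  set CK : ℝ := 1 + 16000 * Ch with hCK
  have hCK1 : 1 ≤ CK := by linarith
  refine ⟨CK + 3, max t1 2, by positivity, le_max_right _ _, ?_⟩
  intro t s ht hts hs1 V W _ _ A a hA ha hPhi
  obtain ⟨hbig, hbigx⟩ := ht1 t ((le_max_left _ _).trans ht)
  obtain ⟨hA1, hA2, hA3, hA4, hA5, hop⟩ := hA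
  obtain ⟨p1, p2, pθ, p3, p4, p5, p6, pτ, p7, p8, p10, pyh, p12⟩ :=
    param3 hgood hbigx hbig s hts ⌊Real.exp (t ^ x)⌋₊ ⌈t ^ β⌉₊ rfl rfl
  have ht1' : 1 ≤ t := by linarith [hbig.1, show (1:ℝ) ≤ 10 ^ 12 by norm_num]
  have ht0 : 0 < t := by linarith
  have ht1000 : 1000 ≤ t := le_trans (by norm_num) hbig.1
  have hs : 0 < s := lt_of_lt_of_le (Real.rpow_pos_of_pos ht0 _) hts
  set K : ℝ := CK * s ^ (-(1/4) : ℝ) with hK
  have hsK : 1 ≤ s ^ (-(1/4) : ℝ) := Real.one_le_rpow_of_pos_of_le_one_of_nonpos hs hs1 (by norm_num)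
  have hK1 : 1 ≤ K := by
    rw [hK]
    nlinarith
  have hs4 : (s ^ (-(1/4) : ℝ)) ^ 4 = 1 / s := by
    rw [← Real.rpow_natCast, ← Real.rpow_mul hs.le]
    norm_num
    rw [Real.rpow_neg_one]
  have hKs : 16 * ((1 / s) * (Ch * (K⁻¹) ^ 4)) ≤ 1 / 1000 := by
    rw [inv_pow, hK, mul_pow, hs4]
    have h1 : (1 / s) * (Ch * (CK ^ 4 * (1 / s))⁻¹) = Ch / CK ^ 4 := by
      field_simp
    rw [h1, mul_div_assoc', div_le_div_iff₀ (by positivity) (by norm_num)]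
    have h2 : CK ≤ CK ^ 4 := by
      calc CK = CK ^ 1 := (pow_one _).symm
        _ ≤ CK ^ 4 := pow_le_pow_right₀ hCK1 (by norm_num)
    linarith
  have hpow : (0 : ℝ) < t ^ (-(1/4) : ℝ) := Real.rpow_pos_of_pos ht0 _
  have hcont := (hPOT1 K (t ^ (-(1/4) : ℝ)) hK1 hpow (by linarith)).1
  have hmono := (hPOT1 K (t ^ (-(1/4) : ℝ)) hK1 hpow (by linarith)).2.2.1
  choose z hz using fun y => hEX V W (bb A a s) (pf K (t ^ (-(1/4) : ℝ))) hcont hmono y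
  -- the operator norm
  have hbabs : ∀ R v, |bb A a s R v| ≤ |A R v| / Real.sqrt s := by
    intro R v
    unfold bb
    rw [abs_div, abs_mul, abs_of_nonneg (rho_nonneg ha v), abs_of_nonneg (Real.sqrt_nonneg s)]
    refine div_le_div_of_nonneg_right ?_ (Real.sqrt_nonneg s)
    exact mul_le_of_le_one_right (abs_nonneg _) (rho_le_one v)
  have hN1 : ∀ y : V → ℝ, ∑ R, (∑ v, |bb A a s R v| * |y v|) ^ 2 ≤
      (t ^ p / s) * nsq y := by
    intro y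
    have h1 : ∀ R, (∑ v, |bb A a s R v| * |y v|) ^ 2 ≤ (∑ v, |A R v| * |y v|) ^ 2 / s := by
      intro R
      have h2 : ∑ v, |bb A a s R v| * |y v| ≤ (∑ v, |A R v| * |y v|) / Real.sqrt s := by
        rw [Finset.sum_div]
        refine Finset.sum_le_sum fun v _ => ?_
        calc |bb A a s R v| * |y v| ≤ (|A R v| / Real.sqrt s) * |y v| :=
              mul_le_mul_of_nonneg_right (hbabs R v) (abs_nonneg _)
          _ = _ := by ring
      have h3 : 0 ≤ ∑ v, |bb A a s R v| * |y v| :=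
        Finset.sum_nonneg fun v _ => mul_nonneg (abs_nonneg _) (abs_nonneg _)
      calc (∑ v, |bb A a s R v| * |y v|) ^ 2 ≤ ((∑ v, |A R v| * |y v|) / Real.sqrt s) ^ 2 :=
            pow_le_pow_left₀ h3 h2 2
        _ = _ := by rw [div_pow, Real.sq_sqrt hs.le]
    calc ∑ R, (∑ v, |bb A a s R v| * |y v|) ^ 2 ≤ ∑ R, (∑ v, |A R v| * |y v|) ^ 2 / s :=
          Finset.sum_le_sum fun R _ => h1 R
      _ = (∑ R, (∑ v, |A R v| * |y v|) ^ 2) / s := by rw [Finset.sum_div]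
      _ ≤ (t ^ p * nsq y) / s := div_le_div_of_nonneg_right (hop y) hs.le
      _ = _ := by ring
  set δ1 : ℝ := 2 * Real.exp (-t ^ (β + x + 3 * g)) + 2 * Real.exp (-((Real.exp (-t ^ x) / 2) ^ 2 *
      Real.exp (4 * t ^ (-α) * (⌈t ^ β⌉₊ : ℕ)) / (16 * 400 ^ 2))) with hδ1
  obtain ⟨a', h1, h2, h3, -⟩ := core_phase3 hmix hSOL hLOC hFAR hMEAN hGEX hCONC hMOM
    (W' := PEmpty) A (fun i => i.elim) a t s
    hA1 hA3 ha hPhi ht1000 (Real.exp (t ^ x)) pτ hs hs1 400 K (t ^ (-(1/4) : ℝ)) (t ^ (-α)) (t ^ θ)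
    (Real.exp (-t ^ (β + x + 3 * g))) (Real.exp (-t ^ x) / 2) (1 / 10 ^ 12) Ch (t ^ p / s)
    ⌊Real.exp (t ^ x)⌋₊ ⌈t ^ β⌉₊
    (fun R => Nat.le_floor (by convert hA4 R using 3))
    (fun v => Nat.le_floor (by convert hA5 v using 3))
    rfl hK1 hpow (by linarith) p2 rfl pθ p3
    (Real.rpow_pos_of_pos ht0 _) p4 p1 (by positivity) hN1 p5 (Real.exp_pos _)
    (by rw [Real.exp_le_one_iff, neg_nonpos]; positivity) (by positivity) p6 p7 p8 hCh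
    (fun z hz R => hEH' V W (bb A a s) K (t ^ (-(1/4) : ℝ)) z hK1 hpow (by linarith) hz R
      (bb_row ha hs R (hPhi R))) hKs δ1 hδ1 (Real.exp (t ^ (β + x + g))) p10
    (fun i => i.elim) (fun i => i.elim)
    (fun i => i.elim) (fun i => i.elim) (Real.exp (-t ^ (β + x + 2 * g)))
    0 (Real.exp (t ^ (β + x + g)) *
        (⌊Real.exp (t ^ x)⌋₊ * Real.exp (-t ^ (β + x + 2 * g)) + 0))
    (fun i => i.elim) (fun i => i.elim) (Real.exp_pos _).le pyh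
    (by positivity) le_rfl
    (fun v => by simp)
    (fun i => i.elim) (fun i => i.elim) (fun i => i.elim) (fun i => i.elim) (fun i => i.elim)
    p12
    (fun i => i.elim)
    z hz
  refine ⟨a', h1, fun R => (h2 R).trans ?_, fun R => (h3 R).trans ?_⟩
  · nlinarith
  · have hs14 : 0 < s ^ (1/4 : ℝ) := Real.rpow_pos_of_pos hs _
    have e1 : Real.sqrt s = s ^ (1/4 : ℝ) * s ^ (1/4 : ℝ) := by
      rw [← Real.rpow_add hs, Real.sqrt_eq_rpow]; norm_num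
    have e2 : s ^ (-(1/4) : ℝ) * s ^ (1/4 : ℝ) = 1 := by
      rw [← Real.rpow_add hs]; norm_num
    have e3 : s ^ (1/4 : ℝ) ≤ 1 := Real.rpow_le_one hs.le hs1 (by norm_num)
    rw [e1, hK]
    calc (CK * s ^ (-(1/4) : ℝ) + 3) * (s ^ (1/4 : ℝ) * s ^ (1/4 : ℝ))
        = CK * (s ^ (-(1/4) : ℝ) * s ^ (1/4 : ℝ)) * s ^ (1/4 : ℝ)
          + 3 * (s ^ (1/4 : ℝ)) * s ^ (1/4 : ℝ) := by ring
      _ = CK * s ^ (1/4 : ℝ) + 3 * (s ^ (1/4 : ℝ)) * s ^ (1/4 : ℝ) := by rw [e2]; ring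
      _ ≤ (CK + 3) * s ^ (1/4 : ℝ) := by nlinarith

/-- ITER3: iteration of the phases. -/
def St_ITER3 (p x σ : ℝ) : Prop := ∃ C t0 : ℝ, 0 < C ∧ 2 ≤ t0 ∧ ∀ (t : ℝ), t0 ≤ t →
  ∀ (V W : Type) [Fintype V] [Fintype W] (A : W → V → ℝ), Adm3 t p x A →
  ∃ a : V → ℝ, (∀ v, |a v| ≤ 1) ∧ (∀ R, Phi A a R ≤ t ^ (-σ)) ∧
    ∀ R, |∑ v, A R v * a v| ≤ C

theorem prove_ITER3 {p x σ : ℝ} (h1 : St_PHASE3 p x σ) : St_ITER3 p x σ := by
  obtain ⟨C, t0, hC, ht0, hph⟩ := h1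
  set ρ : ℝ := (4/5 : ℝ) ^ (1/4 : ℝ) with hρ
  have hρ0 : 0 < ρ := Real.rpow_pos_of_pos (by norm_num) _
  have hρ1 : ρ < 1 := Real.rpow_lt_one (by norm_num) (by norm_num) (by norm_num)
  have hgeo : ∀ j : ℕ, ∑ i ∈ Finset.range j, ρ ^ i ≤ 1 / (1 - ρ) := by
    intro j
    rw [geom_sum_eq hρ1.ne, ← neg_div_neg_eq, neg_sub, neg_sub]
    exact div_le_div_of_nonneg_right (by linarith [pow_pos hρ0 j]) (by linarith)
  refine ⟨C * (1 / (1 - ρ)), t0, mul_pos hC (one_div_pos.mpr (by linarith)), ht0, ?_⟩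
  intro t ht V W _ _ A hA
  have htp : 0 < t := by linarith
  have hsp : 0 < t ^ (-σ) := Real.rpow_pos_of_pos htp _
  have hex : ∃ n : ℕ, (4/5 : ℝ) ^ n ≤ t ^ (-σ) := by
    obtain ⟨n, hn⟩ := exists_pow_lt_of_lt_one hsp (show (4/5 : ℝ) < 1 by norm_num)
    exact ⟨n, hn.le⟩
  classical
  set n := Nat.find hex with hn
  have hn1 : (4/5 : ℝ) ^ n ≤ t ^ (-σ) := Nat.find_spec hex
  have hn2 : ∀ j < n, t ^ (-σ) < (4/5 : ℝ) ^ j := fun j hj =>
    not_le.mp (Nat.find_min hex hj)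
  have key : ∀ j : ℕ, j ≤ n → ∃ a : V → ℝ, (∀ v, |a v| ≤ 1) ∧ (∀ R, Phi A a R ≤ (4/5 : ℝ) ^ j) ∧
      ∀ R, |∑ v, A R v * a v| ≤ C * ∑ i ∈ Finset.range j, ρ ^ i := by
    intro j
    induction j with
    | zero =>
      intro _
      refine ⟨fun _ => 0, fun v => by simp, fun R => ?_, fun R => by simp⟩
      unfold Phi
      simpa using hA.2.1 R
    | succ j ih =>
      intro hj
      obtain ⟨a, ha1, ha2, ha3⟩ := ih (by omega)
      have hjn : j < n := by omega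
      obtain ⟨a', ha1', ha2', ha3'⟩ := hph t ((4/5 : ℝ) ^ j) ht
        (hn2 j hjn).le (pow_le_one₀ (by norm_num) (by norm_num)) V W A a hA ha1 ha2
      refine ⟨a', ha1', fun R => ?_, fun R => ?_⟩
      · have := ha2' R
        rw [pow_succ]
        linarith
      · have h1 := ha3 R
        have h2 := ha3' R
        have h3 : ∑ v, A R v * a' v = ∑ v, A R v * a v + ∑ v, A R v * (a' v - a v) := by
          rw [← Finset.sum_add_distrib]
          exact Finset.sum_congr rfl fun v _ => by ring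
        have h4 : ((4/5 : ℝ) ^ j) ^ (1/4 : ℝ) = ρ ^ j := by
          rw [hρ, ← Real.rpow_natCast, ← Real.rpow_natCast, ← Real.rpow_mul (by norm_num),
            ← Real.rpow_mul (by norm_num), mul_comm]
        rw [h4] at h2
        rw [h3, Finset.sum_range_succ, mul_add]
        exact (abs_add_le _ _).trans (add_le_add h1 h2)
  obtain ⟨a, ha1, ha2, ha3⟩ := key n le_rfl
  refine ⟨a, ha1, fun R => (ha2 R).trans hn1, fun R => (ha3 R).trans ?_⟩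
  exact mul_le_mul_of_nonneg_left (hgeo n) hC.le

end Pool.Agent.Q271.LD3
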