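import Pool.Agent.H320R2.LD.ROUND
import Pool.Agent.Q271.LD3.Phase3

set_option autoImplicit false

/-!
# The final rounding for matrices with large supports
-/

open MeasureTheory ProbabilityTheory

namespace Pool.Agent.Q271.LD3

open Pool.Agent.H320R2.LD Pool.Agent.H320R2.LD.ROUND

/-- ROUND3: the final rounding. -/
def St_ROUND3 (p x σ : ℝ) : Prop := ∃ t0 : ℝ, 2 ≤ t0 ∧ ∀ (t : ℝ), t0 ≤ t →
  ∀ (V W : Type) [Fintype V] [Fintype W] (A : W → V → ℝ) (a : V → ℝ), Adm3 t p x A →
  (∀ v, |a v| ≤ 1) → (∀ R, ∑ v, A R v ^ 2 * (1 - |a v|) ≤ t ^ (-σ)) →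
  ∃ x : V → ℝ, (∀ v, x v = 1 ∨ x v = -1) ∧ ∀ R, |∑ v, A R v * (x v - a v)| ≤ 10

theorem prove_ROUND3 {p x g θ α β σ : ℝ} (hgood : Good p x g θ α β σ) (hL : St_LLL) :
    St_ROUND3 p x σ := by
  classical
  obtain ⟨t1, ht1'⟩ := Filter.eventually_atTop.mp
    ((ev_big3 g hgood.g0).and (ev_big3 x hgood.x0))
  refine ⟨max t1 4096, le_trans (by norm_num) (le_max_right _ _), ?_⟩
  intro t ht V W _ _ A a hA ha hsum
  obtain ⟨hbig, hbigx⟩ := ht1' t ((le_max_left _ _).trans ht)
  obtain ⟨hA1, hA2, hA3, hA4, hA5, -⟩ := hA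
  have ht1 : 1 ≤ t := by linarith [hbig.1, show (1:ℝ) ≤ 10 ^ 12 by norm_num]
  have ht0 : 0 < t := by linarith
  have hg0 := hgood.g0
  have hx0 := hgood.x0
  have hxσ := hgood.xσ
  have hσ3 := hgood.σ3
  set X := t ^ x with hX
  have hXbig : (10:ℝ) ^ 15 ≤ X := hbigx.2.1
  set lam := t ^ (x + g) with hlam
  have hlam0 : 0 < lam := Real.rpow_pos_of_pos ht0 _
  have hlamX : (10:ℝ) ^ 15 * X ≤ lam := by
    rw [hlam, Real.rpow_add ht0, mul_comm]
    exact mul_le_mul_of_nonneg_left hbig.2.1 (by positivity)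
  haveI : ∀ v, IsProbabilityMeasure (nu (a v)) := fun v => nu_prob _ (ha v)
  have hlb : 2 * lam ≤ Real.sqrt t := by
    rw [Real.sqrt_eq_rpow]
    have e1 : t ^ (1/2 : ℝ) = t ^ (1/3 : ℝ) * t ^ (1/6 : ℝ) := by
      rw [← Real.rpow_add ht0]; norm_num
    have e2 : lam ≤ t ^ (1/3 : ℝ) := Real.rpow_le_rpow_of_exponent_le ht1 (by linarith)
    have e3 : 2 ≤ t ^ (1/6 : ℝ) := by
      calc (2:ℝ) ≤ ((10:ℝ) ^ 12) ^ (1/6 : ℝ) := by
            rw [← Real.rpow_natCast, ← Real.rpow_mul (by norm_num)]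
            rw [show (((12 : ℕ) : ℝ) * (1/6)) = ((2 : ℕ) : ℝ) by norm_num, Real.rpow_natCast]
            norm_num
        _ ≤ t ^ (1/6 : ℝ) := Real.rpow_le_rpow (by norm_num) hbig.1 (by norm_num)
    rw [e1, mul_comm]
    exact mul_le_mul e2 e3 (by norm_num) (by positivity)
  have hlσ : lam * t ^ (-σ) ≤ 1 := by
    rw [hlam, ← Real.rpow_add ht0]
    exact Real.rpow_le_one_of_one_le_of_nonpos ht1 (by linarith)
  have hsm : ∀ R v, |lam * A R v| ≤ 1 / 2 := by
    intro R v
    have h1 := hA1 R v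
    have h2 : |A R v| * Real.sqrt t ≤ 1 := by
      have : (|A R v| * Real.sqrt t) ^ 2 ≤ 1 := by
        rw [mul_pow, sq_abs, Real.sq_sqrt ht0.le]; exact h1
      exact (sq_le_one_iff₀ (by positivity)).mp this
    rw [abs_mul, abs_of_pos hlam0]
    have h3 : |A R v| * (2 * lam) ≤ 1 := le_trans (mul_le_mul_of_nonneg_left hlb (abs_nonneg _)) h2
    linarith
  have key : ∀ R, ∀ σ' : ℝ, (σ' = 1 ∨ σ' = -1) → (Measure.pi fun v => nu (a v)).real
      {x | 10 < ∑ v, (σ' * A R v) * (sg (x v) - a v)} ≤ Real.exp (-8 * lam) := by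
    intro R σ' hσ
    have hσ2 : σ' ^ 2 = 1 := by rcases hσ with h | h <;> rw [h] <;> norm_num
    have hσa : |σ'| = 1 := by rcases hσ with h | h <;> rw [h] <;> norm_num
    refine (tail a (fun v => σ' * A R v) ha lam 10 hlam0 ?_).trans ?_
    · intro v
      have := hsm R v
      rw [show lam * (σ' * A R v) = σ' * (lam * A R v) by ring, abs_mul, hσa, one_mul]
      exact this
    · apply Real.exp_le_exp.mpr
      have h1 : ∑ v, 2 * (lam * (σ' * A R v)) ^ 2 * (1 - |a v|)
          = 2 * lam ^ 2 * ∑ v, A R v ^ 2 * (1 - |a v|) := by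
        rw [Finset.mul_sum]
        refine Finset.sum_congr rfl fun v _ => ?_
        rw [show 2 * (lam * (σ' * A R v)) ^ 2 * (1 - |a v|)
          = 2 * lam ^ 2 * (σ' ^ 2) * (A R v ^ 2 * (1 - |a v|)) by ring, hσ2]; ring
      rw [h1]
      have h2 := hsum R
      have h3 : 2 * lam ^ 2 * ∑ v, A R v ^ 2 * (1 - |a v|) ≤ 2 * lam ^ 2 * t ^ (-σ) :=
        mul_le_mul_of_nonneg_left h2 (by positivity)
      have h4 : 2 * lam ^ 2 * t ^ (-σ) = 2 * lam * (lam * t ^ (-σ)) := by ring
      have h5 : 2 * lam * (lam * t ^ (-σ)) ≤ 2 * lam * 1 :=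
        mul_le_mul_of_nonneg_left hlσ (by linarith)
      linarith
  set S : W → Finset V := fun R => Finset.univ.filter (fun v => A R v ≠ 0) with hS
  set E : W → Set (V → ℝ) := fun R => {x | 10 < |∑ v, A R v * (sg (x v) - a v)|} with hE
  have hEm : ∀ R, MeasurableSet (E R) := by
    intro R
    exact measurableSet_lt measurable_const ((meas_sum a (fun v => A R v)).abs)
  have hEp : ∀ R, (Measure.pi fun v => nu (a v)).real (E R) ≤ 2 * Real.exp (-8 * lam) := by
    intro R
    have h1 := key R 1 (Or.inl rfl)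
    have h2 := key R (-1) (Or.inr rfl)
    have hsub : E R ⊆ {x | 10 < ∑ v, (1 * A R v) * (sg (x v) - a v)}
        ∪ {x | 10 < ∑ v, (-1 * A R v) * (sg (x v) - a v)} := by
      intro x hx
      simp only [hE, Set.mem_setOf_eq] at hx
      rcases lt_abs.mp hx with h | h
      · left
        simp only [Set.mem_setOf_eq, one_mul]; exact h
      · right
        simp only [Set.mem_setOf_eq]
        have : ∑ v, (-1 * A R v) * (sg (x v) - a v) = -∑ v, A R v * (sg (x v) - a v) := by
          rw [← Finset.sum_neg_distrib]; exact Finset.sum_congr rfl fun v _ => by ring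
        rw [this]; exact h
    calc (Measure.pi fun v => nu (a v)).real (E R)
        ≤ (Measure.pi fun v => nu (a v)).real ({x | 10 < ∑ v, (1 * A R v) * (sg (x v) - a v)}
        ∪ {x | 10 < ∑ v, (-1 * A R v) * (sg (x v) - a v)}) :=
          measureReal_mono hsub (measure_ne_top _ _)
      _ ≤ _ := measureReal_union_le _ _
      _ ≤ 2 * Real.exp (-8 * lam) := by linarith
  have hcard : ∀ R, ((Finset.univ.filter (fun R' => ¬ Disjoint (S R) (S R'))).card : ℝ) ≤
      Real.exp X * Real.exp X := by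
    intro R
    have hsub : Finset.univ.filter (fun R' => ¬ Disjoint (S R) (S R'))
        ⊆ (S R).biUnion fun v => Finset.univ.filter (fun R' => A R' v ≠ 0) := by
      intro R' hR'
      simp only [Finset.mem_filter, Finset.mem_univ, true_and] at hR'
      rw [Finset.not_disjoint_iff] at hR'
      obtain ⟨v, hv1, hv2⟩ := hR'
      rw [Finset.mem_biUnion]
      refine ⟨v, hv1, ?_⟩
      simp only [hS, Finset.mem_filter, Finset.mem_univ, true_and] at hv2 ⊢
      exact hv2
    have h1 : ((Finset.univ.filter (fun R' => ¬ Disjoint (S R) (S R'))).card : ℝ)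
        ≤ ∑ v ∈ S R, ((Finset.univ.filter (fun R' => A R' v ≠ 0)).card : ℝ) := by
      exact_mod_cast (Finset.card_le_card hsub).trans Finset.card_biUnion_le
    have h2 : ∑ v ∈ S R, ((Finset.univ.filter (fun R' => A R' v ≠ 0)).card : ℝ)
        ≤ ∑ v ∈ S R, Real.exp X := Finset.sum_le_sum fun v _ => hA5 v
    rw [Finset.sum_const, nsmul_eq_mul] at h2
    have h3 : ((S R).card : ℝ) ≤ Real.exp X := hA4 R
    have h4 : ((S R).card : ℝ) * Real.exp X ≤ Real.exp X * Real.exp X :=
      mul_le_mul_of_nonneg_right h3 (by positivity)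
    linarith
  have hN : 1 ≤ ⌊Real.exp X * Real.exp X⌋₊ := by
    apply Nat.le_floor
    have : 1 ≤ Real.exp X := Real.one_le_exp (by positivity)
    simpa using one_le_mul_of_one_le_of_one_le this this
  obtain ⟨x', hx'⟩ := hL V W (fun v => nu (a v)) E S hEm (by
      intro R x y hxy hx
      simp only [hE, Set.mem_setOf_eq] at hx ⊢
      have : ∑ v, A R v * (sg (y v) - a v) = ∑ v, A R v * (sg (x v) - a v) := by
        refine Finset.sum_congr rfl fun v _ => ?_
        by_cases h : A R v = 0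
        · rw [h]; ring
        · rw [hxy v (by simp [hS, h])]
      rw [this]; exact hx)
    (2 * Real.exp (-8 * lam)) ⌊Real.exp X * Real.exp X⌋₊ (by positivity) hN hEp
    (by
      intro R
      apply Nat.le_floor
      have := hcard R
      convert this using 3)
    (by
      have h1 : (⌊Real.exp X * Real.exp X⌋₊ : ℝ) ≤ Real.exp X * Real.exp X :=
        Nat.floor_le (by positivity)
      have h3 : (0:ℝ) ≤ 4 * (2 * Real.exp (-8 * lam)) := by positivity
      refine (mul_le_mul_of_nonneg_left h1 h3).trans ?_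
      have h8 : (8:ℝ) ≤ Real.exp 7 := by linarith [Real.add_one_le_exp (7:ℝ)]
      calc 4 * (2 * Real.exp (-8 * lam)) * (Real.exp X * Real.exp X)
          = 8 * (Real.exp (-8 * lam) * (Real.exp X * Real.exp X)) := by ring
        _ ≤ Real.exp 7 * (Real.exp (-8 * lam) * (Real.exp X * Real.exp X)) :=
            mul_le_mul_of_nonneg_right h8 (by positivity)
        _ = Real.exp (7 + (-8 * lam + (X + X))) := by
            rw [← Real.exp_add, ← Real.exp_add, ← Real.exp_add]
        _ ≤ 1 := by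
            rw [Real.exp_le_one_iff]
            have : 0 < X := by positivity
            linarith [show (7:ℝ) ≤ 10 ^ 15 by norm_num])
  refine ⟨fun v => sg (x' v), fun v => sg_pm _, fun R => ?_⟩
  have := hx' R
  simp only [hE, Set.mem_setOf_eq, not_lt] at this
  exact this

end Pool.Agent.Q271.LD3
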