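import Pool.Agent.H320R2.LD.Chain
import Pool.Agent.Q271.LD3.Round3

set_option autoImplicit false

/-!
# Signs for matrices with large supports
-/

open MeasureTheory ProbabilityTheory

namespace Pool.Agent.Q271.LD3

open Pool.Agent.H320R2.LD

theorem main3 (p x : ℝ) (hp : 1 ≤ p) (hx : 0 < x) (hpx : x < (2 - p) / 9) :
    ∃ C : ℝ, 0 < C ∧ ∀ (t : ℝ), 1 ≤ t →
    ∀ (V W : Type) [Fintype V] [Fintype W] (A : W → V → ℝ), Adm3 t p x A →
    ∃ y : V → ℝ, (∀ v, y v = 1 ∨ y v = -1) ∧ ∀ R, |∑ v, A R v * y v| ≤ C := by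
  have mgf := prove_MGF
  have conc := prove_CONC mgf
  have mom := prove_MOM mgf
  have pot1 := prove_POT1
  have pot2 := prove_POT2
  have two := prove_TWO
  have sol := prove_SOL pot1 two
  have mix := prove_MIX
  have lll := prove_LLL mix
  have cond := prove_COND conc mix
  have shift := prove_SHIFT two pot1 pot2
  have sh := prove_SH mix
  have mean := prove_MEAN shift sh two sol
  have far := prove_FAR sol conc mom pot2
  have eh := prove_EH sol mom pot2
  have hotp := prove_HOTP sol conc mgf mom pot2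
  have ct := prove_CT two pot1
  have loc := prove_LOC hotp prove_PATH prove_CH ct sol cond
  obtain ⟨g, θ, a0, b0, σ, hgood⟩ := good_exists p x hp hx hpx
  have phase := prove_PHASE3 hgood mix prove_EX sol loc far eh mean prove_GEX conc mom pot1
  obtain ⟨C, t0, hC, ht0, hI⟩ := prove_ITER3 phase
  obtain ⟨t1, ht1, hR⟩ := prove_ROUND3 hgood lll
  have hmax : 0 ≤ max t0 t1 := le_trans (by linarith) (le_max_left t0 t1)
  refine ⟨C + 10 + Real.exp ((max t0 t1) ^ x), by positivity, ?_⟩
  intro t ht V W _ _ A hA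
  classical
  by_cases hbig : max t0 t1 ≤ t
  · obtain ⟨a, ha1, ha2, ha3⟩ := hI t ((le_max_left _ _).trans hbig) V W A hA
    have hsq : ∀ R, ∑ v, A R v ^ 2 * (1 - |a v|) ≤ t ^ (-σ) := by
      intro R
      refine le_trans (Finset.sum_le_sum fun v _ => ?_) (ha2 R)
      apply mul_le_mul_of_nonneg_left _ (sq_nonneg _)
      have h0 : 0 ≤ 1 - |a v| := by linarith [ha1 v]
      have h1 : 1 - |a v| ≤ 1 := by linarith [abs_nonneg (a v)]
      calc 1 - |a v| = Real.sqrt ((1 - |a v|) ^ 2) := (Real.sqrt_sq h0).symm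
        _ ≤ Real.sqrt (1 - |a v|) := Real.sqrt_le_sqrt (by nlinarith)
    obtain ⟨y, hy1, hy2⟩ := hR t ((le_max_right _ _).trans hbig) V W A a hA ha1 hsq
    refine ⟨y, hy1, fun R => ?_⟩
    have h3 : ∑ v, A R v * y v = ∑ v, A R v * (y v - a v) + ∑ v, A R v * a v := by
      rw [← Finset.sum_add_distrib]
      exact Finset.sum_congr rfl fun v _ => by ring
    rw [h3]
    refine (abs_add_le _ _).trans ?_
    have := Real.exp_pos ((max t0 t1) ^ x)
    linarith [hy2 R, ha3 R]
  · push Not at hbig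
    refine ⟨fun _ => 1, fun _ => Or.inl rfl, fun R => ?_⟩
    obtain ⟨hA1, _, _, hA4, _⟩ := hA
    have h1 : ∀ v, |A R v| ≤ 1 := by
      intro v
      have h2 := hA1 R v
      have h3 : A R v ^ 2 ≤ 1 := by nlinarith [sq_nonneg (A R v)]
      exact abs_le_one_iff_mul_self_le_one.2 (by nlinarith)
    have h2 : |∑ v, A R v * 1| ≤ ∑ v ∈ Finset.univ.filter (fun v => A R v ≠ 0), (1 : ℝ) := by
      calc |∑ v, A R v * 1| ≤ ∑ v, |A R v * 1| := Finset.abs_sum_le_sum_abs _ _
        _ = ∑ v ∈ Finset.univ.filter (fun v => A R v ≠ 0), |A R v * 1| := by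
            rw [Finset.sum_filter]
            refine Finset.sum_congr rfl fun v _ => ?_
            split_ifs with h
            · rfl
            · push Not at h
              rw [h]; simp
        _ ≤ _ := Finset.sum_le_sum fun v _ => by rw [mul_one]; exact h1 v
    rw [Finset.sum_const, nsmul_eq_mul, mul_one] at h2
    have h3 : ((Finset.univ.filter (fun v => A R v ≠ 0)).card : ℝ) ≤ Real.exp (t ^ x) := by
      convert hA4 R
    have h4 : Real.exp (t ^ x) ≤ Real.exp ((max t0 t1) ^ x) :=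
      Real.exp_le_exp.2 (Real.rpow_le_rpow (by linarith) hbig.le hx.le)
    linarith

end Pool.Agent.Q271.LD3
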